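import Pool.Agent.Q17.LogOzone.Jac

/-! # `p`-th powers of derivations of a field of characteristic `p` -/

set_option autoImplicit false

open Finset

namespace Q17.LogOzone

variable {p : ℕ} [hp : Fact p.Prime] {k K : Type*} [CommRing k] [Field K] [Algebra k K] [CharP K p]

/-- the additive endomorphism of a derivation -/
def op (D : Derivation k K K) : AddMonoid.End K := D.toLinearMap.toAddMonoidHom

omit hp [CharP K p] in
@[simp] lemma op_apply (D : Derivation k K K) (a : K) : op D a = D a := rfl

omit hp [CharP K p] in
lemma Lm_apply (a b : K) : Lm a b = a * b := rfl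

omit hp [CharP K p] in
lemma ad_op_Lm (D : Derivation k K K) (a : K) : ad (op D) (Lm a) = Lm (D a) := by
  ext b
  rw [ad_apply]
  change D (a * b) - a * D b = D a * b
  rw [D.leibniz, smul_eq_mul, smul_eq_mul]
  ring

omit hp [CharP K p] in
lemma ad_op_pow_Lm (D : Derivation k K K) (n : ℕ) (a : K) :
    ((ad (op D)) ^ n) (Lm a) = Lm ((op D ^ n) a) := by
  induction n generalizing a with
  | zero => rfl
  | succ n ih =>
    rw [pow_succ, end_mul_apply, ad_op_Lm, ih, pow_succ, end_mul_apply, op_apply]

lemma op_pow_leibniz (D : Derivation k K K) (a b : K) :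
    (op D ^ p) (a * b) = a * (op D ^ p) b + b * (op D ^ p) a := by
  have := charP_end (p := p) K
  have h1 := ad_pow (p := p) (op D) (Lm a)
  rw [ad_op_pow_Lm] at h1
  have h2 := DFunLike.congr_fun h1 b
  change (op D ^ p) a * b = (op D ^ p) (a * b) - a * (op D ^ p) b at h2
  rw [mul_comm b, h2]
  ring

omit hp [CharP K p] in
lemma toLin_pow (D : Derivation k K K) (n : ℕ) (a : K) :
    ((D.toLinearMap : Module.End k K) ^ n) a = (op D ^ n) a := by
  induction n generalizing a with
  | zero => rfl
  | succ n ih =>
    rw [pow_succ, pow_succ, end_mul_apply, ← ih]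
    rfl

/-- the `p`-th power of a derivation in characteristic `p` -/
def pPow (p : ℕ) [hp : Fact p.Prime] {k K : Type*} [CommRing k] [Field K] [Algebra k K] [CharP K p]
    (D : Derivation k K K) : Derivation k K K where
  toLinearMap := (D.toLinearMap : Module.End k K) ^ p
  map_one_eq_zero' := by
    have h := op_pow_leibniz (p := p) D 1 1
    change ((D.toLinearMap : Module.End k K) ^ p) 1 = 0
    rw [toLin_pow]
    rw [mul_one, one_mul] at h
    exact left_eq_add.1 h
  leibniz' a b := by
    change ((D.toLinearMap : Module.End k K) ^ p) (a * b) =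
      a * ((D.toLinearMap : Module.End k K) ^ p) b + b * ((D.toLinearMap : Module.End k K) ^ p) a
    rw [toLin_pow, toLin_pow, toLin_pow]
    exact op_pow_leibniz D a b

lemma pPow_apply (D : Derivation k K K) (a : K) : pPow p D a = (op D ^ p) a :=
  toLin_pow D p a

lemma op_pPow (D : Derivation k K K) : op (pPow p D) = op D ^ p := by
  ext a
  exact pPow_apply D a

omit hp [CharP K p] in
lemma op_smul (u : K) (D : Derivation k K K) : op (u • D) = Lm u * op D := rfl

omit hp [CharP K p] in
lemma op_add (D E : Derivation k K K) : op (D + E) = op D + op E := rfl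

omit hp [CharP K p] in
lemma op_sub (D E : Derivation k K K) : op (D - E) = op D - op E := rfl

omit hp [CharP K p] in
lemma op_injective : Function.Injective (op (k := k) (K := K)) := by
  intro D E h
  ext a
  exact DFunLike.congr_fun h a

omit hp [CharP K p] in
lemma op_lie (D E : Derivation k K K) : op ⁅D, E⁆ = op D * op E - op E * op D := rfl

/-- the operator `∑_{i < n} c_i W^i` -/
def S (W : Derivation k K K) (c : ℕ → K) (n : ℕ) : AddMonoid.End K :=
  ∑ i ∈ range n, Lm (c i) * op W ^ i

omit hp [CharP K p] in
lemma S_apply (W : Derivation k K K) (c : ℕ → K) (n : ℕ) (a : K) :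
    S W c n a = ∑ i ∈ range n, c i * (op W ^ i) a := by
  rw [S, end_sum_apply]
  rfl

omit hp [CharP K p] in
lemma exists_coeff (W : Derivation k K K) (u : K) (n : ℕ) :
    ∃ c : ℕ → K, (n ≠ 0 → c 0 = 0) ∧ c n = u ^ n ∧ (∀ m, n < m → c m = 0) ∧
      op (u • W) ^ n = S W c (n + 1) := by
  induction n with
  | zero =>
    refine ⟨fun i => if i = 0 then 1 else 0, fun h => absurd rfl h, by simp, ?_, ?_⟩
    · intro m hm
      exact if_neg (by omega)
    · ext a
      rw [S_apply]
      simp
  | succ n ih =>
    obtain ⟨c, h0, hn, hz, hc⟩ := ih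
    refine ⟨fun i => u * W (c i) + if i = 0 then 0 else u * c (i - 1), ?_, ?_, ?_, ?_⟩
    · intro _
      by_cases hn0 : n = 0
      · subst hn0
        simp [hn]
      · simp [h0 hn0]
    · simp only [Nat.add_eq_zero_iff, one_ne_zero, and_false, if_false, Nat.add_sub_cancel]
      rw [hz (n + 1) (by omega), map_zero, hn]
      ring
    · intro m hm
      simp only
      rw [hz m (by omega), map_zero, hz (m - 1) (by omega)]
      simp
    · ext a
      rw [pow_succ', end_mul_apply, hc, op_apply]
      change u * W (S W c (n + 1) a) = _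
      rw [S_apply, S_apply, map_sum]
      have h1 : ∀ i, W (c i * (op W ^ i) a) = W (c i) * (op W ^ i) a + c i * (op W ^ (i + 1)) a := by
        intro i
        rw [W.leibniz, smul_eq_mul, smul_eq_mul, pow_succ', end_mul_apply, op_apply]
        ring
      simp only [h1]
      rw [Finset.sum_add_distrib, mul_add, Finset.mul_sum, Finset.mul_sum]
      simp only [add_mul]
      rw [Finset.sum_add_distrib]
      congr 1
      · rw [Finset.sum_range_succ (n := n + 1), hz (n + 1) (by omega), map_zero, mul_zero, zero_mul,
          add_zero]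
        refine Finset.sum_congr rfl fun i _ => ?_
        ring
      · rw [Finset.sum_range_succ' (n := n + 1)]
        simp only [if_true, zero_mul, add_zero, Nat.add_eq_zero_iff, one_ne_zero, and_false,
          if_false, Nat.add_sub_cancel]
        refine Finset.sum_congr rfl fun i _ => ?_
        ring

omit hp [CharP K p] in
lemma W_pow_t (W : Derivation k K K) {t : K} (ht : W t = 1) (m i : ℕ) :
    (op W ^ i) (t ^ m) = (m.descFactorial i : K) * t ^ (m - i) := by
  induction i with
  | zero => simp
  | succ i ih =>
    rw [pow_succ', end_mul_apply, ih, op_apply, W.leibniz, W.leibniz_pow, ht]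
    simp only [smul_eq_mul, nsmul_eq_mul, mul_one, Derivation.map_natCast, mul_zero, add_zero]
    rw [Nat.descFactorial_succ, Nat.cast_mul]
    have : m - i - 1 = m - (i + 1) := by omega
    rw [this]
    ring

lemma pPow_smul_normalized (W : Derivation k K K) {t : K} (ht : W t = 1) (u : K) :
    ∃ c : K, pPow p (u • W) = u ^ p • pPow p W + c • W := by
  have hp2 := hp.out.two_le
  obtain ⟨c, h0, hn, hz, hc⟩ := exists_coeff W u p
  have h0' := h0 (by omega)
  -- the difference
  set E : Derivation k K K := pPow p (u • W) - u ^ p • pPow p W with hE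
  have hEop : op E = S W c p := by
    rw [hE, op_sub, op_pPow, op_smul (u ^ p), op_pPow, hc]
    rw [S, Finset.sum_range_succ, hn, S]
    abel
  have hEa : ∀ a, E a = ∑ i ∈ range p, c i * (op W ^ i) a := by
    intro a
    have := DFunLike.congr_fun hEop a
    rw [S_apply] at this
    exact this
  have hEt : E t = c 1 := by
    have := hEa t
    rw [this]
    have h2 := W_pow_t W ht 1
    rw [pow_one] at h2
    simp only [h2]
    rw [Finset.sum_eq_single 1]
    · simp
    · intro i _ hi
      rcases Nat.eq_zero_or_pos i with h | h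
      · subst h
        rw [h0', zero_mul]
      · rw [Nat.descFactorial_of_lt (by omega)]
        simp
    · intro h
      rw [Finset.mem_range] at h
      omega
  have hvan : ∀ m, 2 ≤ m → m < p → c m = 0 := by
    intro m
    induction m using Nat.strong_induction_on with
    | _ m ih =>
      intro h2 hmp
      have h3 := hEa (t ^ m)
      rw [E.leibniz_pow, hEt] at h3
      simp only [W_pow_t W ht] at h3
      -- only `i = 1` and `i = m` remain
      have h4 : ∑ i ∈ range p, c i * ((m.descFactorial i : K) * t ^ (m - i)) =
          ∑ i ∈ ({1, m} : Finset ℕ), c i * ((m.descFactorial i : K) * t ^ (m - i)) := by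
        symm
        apply Finset.sum_subset
        · intro i hi
          simp only [Finset.mem_insert, Finset.mem_singleton] at hi
          rw [Finset.mem_range]
          omega
        · intro i hi hni
          simp only [Finset.mem_insert, Finset.mem_singleton, not_or] at hni
          rw [Finset.mem_range] at hi
          rcases Nat.lt_or_ge i 2 with h | h
          · have : i = 0 := by omega
            subst this
            rw [h0', zero_mul]
          · rcases Nat.lt_or_ge i m with h' | h'
            · rw [ih i h' h hi, zero_mul]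
            · rw [Nat.descFactorial_of_lt (by omega)]
              simp
      rw [h4, Finset.sum_pair (by omega)] at h3
      rw [Nat.descFactorial_self, Nat.descFactorial_one, Nat.sub_self, pow_zero, mul_one] at h3
      have h5 : c m * (m.factorial : K) = 0 := by
        have h6 : m • t ^ (m - 1) • c 1 = c 1 * ((m : K) * t ^ (m - 1)) := by
          rw [nsmul_eq_mul, smul_eq_mul]; ring
        rw [h6] at h3
        exact left_eq_add.1 h3
      rcases mul_eq_zero.1 h5 with h6 | h6
      · exact h6
      · exfalso
        rw [CharP.cast_eq_zero_iff K p, hp.out.dvd_factorial] at h6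
        omega
  refine ⟨c 1, ?_⟩
  have h7 : E = c 1 • W := by
    ext a
    rw [hEa, Finset.sum_eq_single 1]
    · rw [pow_one]; rfl
    · intro i hi h1
      rw [Finset.mem_range] at hi
      rcases Nat.eq_zero_or_pos i with h | h
      · subst h
        rw [h0', zero_mul]
      · rw [hvan i (by omega) hi, zero_mul]
    · intro h
      rw [Finset.mem_range] at h
      omega
  rw [← h7, hE]
  abel

/-- Hochschild's formula (weak form). -/
theorem pPow_smul (D : Derivation k K K) (f : K) :
    ∃ a b : K, pPow p (f • D) = a • pPow p D + b • D := by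
  by_cases hD : D = 0
  · refine ⟨0, 0, ?_⟩
    subst hD
    ext a
    rw [pPow_apply]
    have : op (f • (0 : Derivation k K K)) = 0 := by
      ext b; simp
    rw [this, zero_pow hp.out.ne_zero]
    simp
  · obtain ⟨t, ht⟩ : ∃ t, D t ≠ 0 := by
      by_contra hcon
      push Not at hcon
      exact hD (Derivation.ext hcon)
    set v := D t with hv
    set W : Derivation k K K := v⁻¹ • D with hW
    have hWt : W t = 1 := by
      rw [hW]
      change v⁻¹ * D t = 1
      rw [← hv, inv_mul_cancel₀ ht]
    have hDW : D = v • W := by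
      rw [hW, smul_smul, mul_inv_cancel₀ ht, one_smul]
    obtain ⟨c₁, h1⟩ := pPow_smul_normalized (p := p) W hWt v
    obtain ⟨c₂, h2⟩ := pPow_smul_normalized (p := p) W hWt (f * v)
    rw [← hDW] at h1
    refine ⟨f ^ p, (c₂ - f ^ p * c₁) * v⁻¹, ?_⟩
    have h3 : f • D = (f * v) • W := by
      rw [mul_smul, ← hDW]
    rw [h3, h2, h1, hW]
    simp only [smul_add, smul_smul]
    rw [mul_pow, add_assoc, ← add_smul]
    congr 2
    ring

lemma pPow_add_mem {V : Submodule K (Derivation k K K)} (hV : ∀ D ∈ V, ∀ E ∈ V, ⁅D, E⁆ ∈ V)
    {D E : Derivation k K K} (hD : D ∈ V) (hE : E ∈ V) :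
    pPow p (D + E) - pPow p D - pPow p E ∈ V := by
  have := charP_end (p := p) K
  let opHom : Derivation k K K →+ AddMonoid.End K :=
    { toFun := op, map_zero' := rfl, map_add' := fun _ _ => rfl }
  let L : AddSubgroup (AddMonoid.End K) := V.toAddSubgroup.map opHom
  have hL : ∀ x ∈ L, ∀ y ∈ L, x * y - y * x ∈ L := by
    rintro _ ⟨x, hx, rfl⟩ _ ⟨y, hy, rfl⟩
    exact ⟨⁅x, y⁆, hV x hx y hy, rfl⟩
  have h := jacobson (p := p) L hL (x := op D) (y := op E) ⟨D, hD, rfl⟩ ⟨E, hE, rfl⟩
  obtain ⟨F, hF, hFe⟩ := h
  have : pPow p (D + E) - pPow p D - pPow p E = F := by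
    apply op_injective
    rw [op_sub, op_sub, op_pPow, op_pPow, op_pPow, op_add]
    exact hFe.symm
  rw [this]
  exact hF

/-- If `V` is closed under brackets and spanned by elements whose `p`-th powers are in `V`, then it
is closed under `p`-th powers. -/
theorem pPow_mem_of_span {V : Submodule K (Derivation k K K)}
    (hV : ∀ D ∈ V, ∀ E ∈ V, ⁅D, E⁆ ∈ V) {Y : Set (Derivation k K K)}
    (hYV : V = Submodule.span K Y) (hY : ∀ D ∈ Y, pPow p D ∈ V) :
    ∀ D ∈ V, pPow p D ∈ V := by
  intro D hD
  have hD' := hD
  rw [hYV] at hD'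
  induction hD' using Submodule.span_induction with
  | mem x hx => exact hY x hx
  | zero =>
    have : pPow p (0 : Derivation k K K) = 0 := by
      ext a
      rw [pPow_apply]
      have : op (0 : Derivation k K K) = 0 := rfl
      rw [this, zero_pow hp.out.ne_zero]
      rfl
    rw [this]
    exact V.zero_mem
  | add x y hx hy ihx ihy =>
    have hx' : x ∈ V := by rw [hYV]; exact hx
    have hy' : y ∈ V := by rw [hYV]; exact hy
    have h1 := pPow_add_mem (p := p) hV hx' hy'
    have h2 := V.add_mem (V.add_mem h1 (ihy hy')) (ihx hx')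
    convert h2 using 1
    abel
  | smul a x hx ih =>
    have hx' : x ∈ V := by rw [hYV]; exact hx
    obtain ⟨c, d, h⟩ := pPow_smul (p := p) x a
    rw [h]
    exact V.add_mem (V.smul_mem _ (ih hx')) (V.smul_mem _ hx')

end Q17.LogOzone
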