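import Pool.Agent.Q17.LogOzone.Frame

/-! # Derivation of a determinant; points detecting linear independence; symplectic families -/

set_option autoImplicit false

open Finset Matrix

namespace Q17.LogOzone

section det

open TrivSqZeroExt

variable {k K : Type*} [CommRing k] [Field K] [Algebra k K]

/-- the ring homomorphism `a ↦ a + ε D a` -/
def dualHom (D : Derivation k K K) : K →+* TrivSqZeroExt K K where
  toFun a := inl a + inr (D a)
  map_one' := by simp
  map_mul' a b := by
    apply TrivSqZeroExt.ext
    · simp
    · simp only [snd_add, snd_inl, snd_inr, zero_add, snd_mul, fst_add, fst_inl, fst_inr, add_zero,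
        D.leibniz, smul_eq_mul, MulOpposite.smul_eq_mul_unop, MulOpposite.unop_op]
      ring
  map_zero' := by simp
  map_add' a b := by
    apply TrivSqZeroExt.ext
    · simp
    · simp

/-- If `D(N) = Z N + N B`, then `D(det N) = (tr Z + tr B) det N`. -/
theorem det_deriv (D : Derivation k K K) {J : Type*} [Fintype J] [DecidableEq J]
    (N Z B : Matrix J J K) (h : ∀ i j, D (N i j) = (Z * N + N * B) i j) :
    D N.det = (Z.trace + B.trace) * N.det := by
  let e : TrivSqZeroExt K K := inr 1
  have he : e * e = 0 := inr_mul_inr _ _ _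
  have hmap : N.map (dualHom D) = (1 + e • Z.map (inlHom K K)) * N.map (inlHom K K) *
      (1 + e • B.map (inlHom K K)) := by
    have h1 : (1 + e • Z.map (inlHom K K)) * N.map (inlHom K K) * (1 + e • B.map (inlHom K K)) =
        N.map (inlHom K K) + e • ((Z * N + N * B).map (inlHom K K)) := by
      rw [Matrix.map_add _ (map_add _), Matrix.map_mul, Matrix.map_mul]
      rw [add_mul, one_mul, mul_add, mul_one, add_mul]
      rw [smul_mul_assoc, smul_mul_assoc, mul_smul_comm, mul_smul_comm, smul_smul, he, zero_smul,
        add_zero, smul_add]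
      abel
    rw [h1]
    ext i j
    · simp [dualHom, e]
    · simp only [Matrix.map_apply, dualHom, RingHom.coe_mk, MonoidHom.coe_mk, OneHom.coe_mk,
        Matrix.add_apply, Matrix.smul_apply, smul_eq_mul, snd_add, snd_inl, snd_inr, zero_add,
        snd_mul, e, fst_inr, zero_smul, MulOpposite.smul_eq_mul_unop, MulOpposite.unop_op,
        inlHom_apply, fst_inl, mul_zero, mul_one, zero_mul, one_mul]
      rw [h i j, Matrix.add_apply]
  have hdet := congrArg Matrix.det hmap
  rw [Matrix.det_mul, Matrix.det_mul, Matrix.det_one_add_smul e (Z.map _),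
    Matrix.det_one_add_smul e (B.map _), pow_two, he, mul_zero, add_zero, mul_zero,
    add_zero] at hdet
  have e1 : (N.map (dualHom D)).det = dualHom D N.det := by
    rw [RingHom.map_det]; rfl
  have e2 : (N.map (inlHom K K)).det = inlHom K K N.det := by
    rw [RingHom.map_det]; rfl
  have e3 : ∀ M : Matrix J J K, (M.map (inlHom K K)).trace = inlHom K K M.trace := by
    intro M
    rw [Matrix.trace, Matrix.trace, map_sum]
    rfl
  rw [e1, e2, e3, e3] at hdet
  have hs := congrArg TrivSqZeroExt.snd hdet
  simp only [dualHom, RingHom.coe_mk, MonoidHom.coe_mk, OneHom.coe_mk, snd_add, snd_inl, snd_inr,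
    zero_add, snd_mul, e, fst_inr, zero_smul, MulOpposite.smul_eq_mul_unop, MulOpposite.unop_op,
    inlHom_apply, fst_inl, mul_zero, mul_one, zero_mul, one_mul, fst_add, fst_one, snd_one,
    fst_mul, add_zero, smul_eq_mul, smul_zero, zero_add] at hs
  rw [hs]
  ring

end det

section points

variable {K : Type*} [Field K]

/-- Linearly independent functions on a set have a nonvanishing determinant at suitable points. -/
theorem exists_points {X J : Type*} [Fintype J] [DecidableEq J] (E : J → X → K)
    (hE : LinearIndependent K E) : ∃ t : J → X, (Matrix.of fun i j => E i (t j)).det ≠ 0 := by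
  classical
  -- the vectors `(E i x)_i` span `J → K`
  let v : X → J → K := fun x i => E i x
  have hspan : Submodule.span K (Set.range v) = ⊤ := by
    by_contra hne
    obtain ⟨φ, hφ0, hφ⟩ := Submodule.exists_dual_map_eq_bot_of_lt_top (lt_top_iff_ne_top.2 hne)
      inferInstance
    have hφv : ∀ x, φ (v x) = 0 := by
      intro x
      have : φ (v x) ∈ (Submodule.span K (Set.range v)).map φ :=
        ⟨v x, Submodule.subset_span ⟨x, rfl⟩, rfl⟩
      rw [hφ] at this
      exact this
    have hc : ∑ i, φ (Pi.single i 1) • E i = 0 := by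
      funext x
      have h1 := hφv x
      rw [LinearMap.pi_apply_eq_sum_univ φ (v x)] at h1
      rw [Finset.sum_apply]
      simp only [Pi.smul_apply, smul_eq_mul, Pi.zero_apply]
      simp only [smul_eq_mul] at h1
      rw [← h1]
      refine Finset.sum_congr rfl fun i _ => ?_
      rw [mul_comm]
      congr 2
      funext j
      rw [Pi.single_apply]
      exact if_congr eq_comm rfl rfl
    have h2 := Fintype.linearIndependent_iff.1 hE _ hc
    apply hφ0
    apply LinearMap.pi_ext
    intro i c
    have h3 : (Pi.single i c : J → K) = c • Pi.single i 1 := by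
      rw [← Pi.single_smul, smul_eq_mul, mul_one]
    rw [h3, map_smul, h2, smul_zero, LinearMap.zero_apply]
  obtain ⟨b, hb, hbs, hbi⟩ := exists_linearIndependent K (Set.range v)
  rw [hspan] at hbs
  let B : Module.Basis b K (J → K) := Module.Basis.mk hbi (by rw [Subtype.range_coe, hbs])
  have hcard : Nonempty (J ≃ b) := by
    have h1 := Module.finrank_eq_nat_card_basis B
    have h2 : Module.finrank K (J → K) = Fintype.card J := Module.finrank_pi K
    have hfin : Finite b := Module.Finite.finite_basis B
    have := Fintype.ofFinite b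
    rw [h2, Nat.card_eq_fintype_card] at h1
    exact ⟨Fintype.equivOfCardEq h1⟩
  obtain ⟨e⟩ := hcard
  have hx : ∀ j : J, ∃ x, v x = (e j : J → K) := fun j => hb (e j).2
  choose t ht using hx
  refine ⟨t, ?_⟩
  have hli : LinearIndependent K (fun j : J => v (t j)) := by
    have : (fun j : J => v (t j)) = (fun y : b => (y : J → K)) ∘ e := by
      funext j
      exact ht j
    rw [this]
    exact hbi.comp _ e.injective
  have h3 : LinearIndependent K (Matrix.of fun j i => E i (t j)).row := hli
  rw [Matrix.linearIndependent_rows_iff_isUnit] at h3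
  have h4 := (Matrix.isUnit_iff_isUnit_det _).1 h3
  have h5 : (Matrix.of fun i j => E i (t j)) = (Matrix.of fun j i => E i (t j))ᵀ := rfl
  rw [h5, Matrix.det_transpose]
  exact h4.ne_zero

end points

section symplectic

variable {K M : Type*} [Field K] [AddCommGroup M] [Module K M] [FiniteDimensional K M]

/-- A symplectic family for the form `B`. -/
structure Sympl (B : M →ₗ[K] M →ₗ[K] K) {m : ℕ} (α β : Fin m → M) : Prop where
  aa : ∀ i j, B (α i) (α j) = 0
  bb : ∀ i j, B (β i) (β j) = 0
  ab : ∀ i j, B (α i) (β j) = if i = j then 1 else 0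

/-- the remainder of `γ` -/
def rem (B : M →ₗ[K] M →ₗ[K] K) {m : ℕ} (α β : Fin m → M) (γ : M) : M :=
  γ - ∑ i, (B γ (β i) • α i - B γ (α i) • β i)

variable {B : M →ₗ[K] M →ₗ[K] K} (halt : ∀ γ, B γ γ = 0)

include halt in
omit [FiniteDimensional K M] in
lemma skew (γ δ : M) : B γ δ = - B δ γ := by
  have h := halt (γ + δ)
  simp only [map_add, LinearMap.add_apply, halt, zero_add, add_zero] at h
  exact eq_neg_of_add_eq_zero_right h

include halt in
omit [FiniteDimensional K M] in
lemma Sympl.rem_a {m : ℕ} {α β : Fin m → M} (h : Sympl B α β) (γ : M) (j : Fin m) :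
    B (rem B α β γ) (α j) = 0 := by
  simp only [rem, map_sub, map_sum, map_smul, LinearMap.sub_apply, LinearMap.smul_apply,
    LinearMap.coe_sum, Finset.sum_apply, smul_eq_mul]
  have h1 : ∀ i, B (β i) (α j) = - if j = i then 1 else 0 := by
    intro i
    rw [skew halt, h.ab]
  simp only [h.aa, h1, mul_zero, zero_sub, mul_neg, mul_ite, mul_one, neg_neg]
  rw [Finset.sum_ite_eq]
  simp

omit [FiniteDimensional K M] in
lemma Sympl.rem_b {m : ℕ} {α β : Fin m → M} (h : Sympl B α β) (γ : M) (j : Fin m) :
    B (rem B α β γ) (β j) = 0 := by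
  simp only [rem, map_sub, map_sum, map_smul, LinearMap.sub_apply, LinearMap.smul_apply,
    LinearMap.coe_sum, Finset.sum_apply, smul_eq_mul]
  simp only [h.ab, h.bb, mul_zero, sub_zero, mul_ite, mul_one]
  rw [Finset.sum_ite_eq']
  simp

include halt in
/-- There is a symplectic family whose remainders are in the radical. -/
theorem exists_sympl : ∃ (m : ℕ) (α β : Fin m → M), Sympl B α β ∧
    ∀ γ δ, B (rem B α β γ) δ = 0 := by
  by_contra hcon
  push Not at hcon
  have hall : ∀ m : ℕ, ∃ α β : Fin m → M, Sympl B α β := by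
    intro m
    induction m with
    | zero => exact ⟨Fin.elim0, Fin.elim0, ⟨fun i => i.elim0, fun i => i.elim0, fun i => i.elim0⟩⟩
    | succ m ih =>
      obtain ⟨α, β, h⟩ := ih
      obtain ⟨γ, δ, hγδ⟩ := hcon m α β h
      set γ' := rem B α β γ with hγ'
      set δ' := rem B α β ((B γ' δ)⁻¹ • δ) with hδ'
      have h1 : B γ' δ' = 1 := by
        rw [hδ', rem, map_sub, map_sum, map_smul, smul_eq_mul, inv_mul_cancel₀ hγδ]
        have : ∀ i ∈ Finset.univ, B γ' (B ((B γ' δ)⁻¹ • δ) (β i) • α i -
            B ((B γ' δ)⁻¹ • δ) (α i) • β i) = 0 := by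
          intro i _
          have e1 : B γ' (α i) = 0 := by rw [hγ', h.rem_a halt]
          have e2 : B γ' (β i) = 0 := by rw [hγ', h.rem_b]
          rw [map_sub, map_smul (B γ'), map_smul (B γ'), e1, e2, smul_zero, smul_zero, sub_zero]
        rw [Finset.sum_eq_zero this, sub_zero]
      refine ⟨Fin.cons γ' α, Fin.cons δ' β, ⟨?_, ?_, ?_⟩⟩
      · intro i j
        refine Fin.cases ?_ (fun i => ?_) i <;> refine Fin.cases ?_ (fun j => ?_) j
        · rw [Fin.cons_zero]; exact halt _
        · rw [Fin.cons_zero, Fin.cons_succ, hγ']; exact h.rem_a halt _ _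
        · rw [Fin.cons_zero, Fin.cons_succ, skew halt, hγ', h.rem_a halt, neg_zero]
        · rw [Fin.cons_succ, Fin.cons_succ]; exact h.aa i j
      · intro i j
        refine Fin.cases ?_ (fun i => ?_) i <;> refine Fin.cases ?_ (fun j => ?_) j
        · rw [Fin.cons_zero]; exact halt _
        · rw [Fin.cons_zero, Fin.cons_succ, hδ']; exact h.rem_b _ _
        · rw [Fin.cons_zero, Fin.cons_succ, skew halt, hδ', h.rem_b, neg_zero]
        · rw [Fin.cons_succ, Fin.cons_succ]; exact h.bb i j
      · intro i j
        refine Fin.cases ?_ (fun i => ?_) i <;> refine Fin.cases ?_ (fun j => ?_) j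
        · rw [Fin.cons_zero, Fin.cons_zero, if_pos rfl]; exact h1
        · rw [Fin.cons_zero, Fin.cons_succ, hγ', h.rem_b, if_neg (Fin.succ_ne_zero j).symm]
        · rw [Fin.cons_zero, Fin.cons_succ, skew halt, hδ', h.rem_a halt, neg_zero,
            if_neg (Fin.succ_ne_zero i)]
        · rw [Fin.cons_succ, Fin.cons_succ, h.ab i j]
          simp
  -- contradiction with the dimension
  obtain ⟨α, β, h⟩ := hall (Module.finrank K M + 1)
  have hli : LinearIndependent K α := by
    rw [Fintype.linearIndependent_iff]
    intro c hc j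
    have h1 := congrArg (fun γ => B γ (β j)) hc
    simp only [map_sum, map_smul, LinearMap.coe_sum, Finset.sum_apply, LinearMap.smul_apply,
      smul_eq_mul, h.ab, mul_ite, mul_one, mul_zero, map_zero, LinearMap.zero_apply,
      Finset.sum_ite_eq', Finset.mem_univ, if_true] at h1
    exact h1
  have h2 := hli.fintype_card_le_finrank
  rw [Fintype.card_fin] at h2
  omega

end symplectic

end Q17.LogOzone
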