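import Pool.Agent.Q17.LogOzone.Der

/-! # Frames of restricted spaces of derivations and the top coefficient functional -/

set_option autoImplicit false

open Finset

namespace Q17.LogOzone

variable {p : ℕ} [hp : Fact p.Prime] {k K : Type*} [CommRing k] [Field K] [Algebra k K] [CharP K p]

omit hp [CharP K p] in
lemma sum_smul_apply {ι : Type*} (s : Finset ι) (c : ι → K) (W : ι → Derivation k K K) (a : K) :
    (∑ j ∈ s, c j • W j) a = ∑ j ∈ s, c j * W j a := by
  classical
  induction s using Finset.induction_on with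
  | empty => rfl
  | insert b s hb ih =>
    rw [Finset.sum_insert hb, Finset.sum_insert hb, ← ih]
    rfl

/-- `W` is a basis of `V` which is dual to the coordinates `t`; `V` is closed under brackets and
`p`-th powers. -/
structure Frame (p : ℕ) [hp : Fact p.Prime] {k K : Type*} [CommRing k] [Field K] [Algebra k K]
    [CharP K p] (V : Submodule K (Derivation k K K)) {ι : Type*} [Fintype ι] [DecidableEq ι]
    (t : ι → K) (W : ι → Derivation k K K) : Prop where
  lie : ∀ D ∈ V, ∀ E ∈ V, ⁅D, E⁆ ∈ V
  ppow : ∀ D ∈ V, pPow p D ∈ V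
  mem : ∀ j, W j ∈ V
  dual : ∀ i j, W j (t i) = if i = j then 1 else 0
  expand : ∀ D ∈ V, D = ∑ j, D (t j) • W j

namespace Frame

variable {V : Submodule K (Derivation k K K)} {ι : Type*} [Fintype ι] [DecidableEq ι]
    {t : ι → K} {W : ι → Derivation k K K} (F : Frame p V t W)

include F

lemma eq_zero {D : Derivation k K K} (hD : D ∈ V) (h : ∀ j, D (t j) = 0) : D = 0 := by
  rw [F.expand D hD]
  simp [h]

lemma comm (i j : ι) : Commute (op (W i)) (op (W j)) := by
  have h : ⁅W i, W j⁆ = 0 := by
    refine F.eq_zero (F.lie _ (F.mem i) _ (F.mem j)) fun l => ?_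
    rw [Derivation.commutator_apply, F.dual, F.dual]
    split_ifs <;> simp
  have h2 := op_lie (W i) (W j)
  rw [h] at h2
  exact (sub_eq_zero.1 h2.symm)

lemma op_pow_eq_zero (j : ι) : op (W j) ^ p = 0 := by
  have hp2 := hp.out.two_le
  have h : pPow p (W j) = 0 := by
    refine F.eq_zero (F.ppow _ (F.mem j)) fun l => ?_
    rw [pPow_apply]
    have : p = (p - 2) + 1 + 1 := by omega
    rw [this, pow_succ, end_mul_apply, pow_succ, end_mul_apply, op_apply, op_apply, F.dual]
    split_ifs <;> simp
  rw [← op_pPow, h]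
  rfl

lemma pairwise (s : Finset ι) :
    (s : Set ι).Pairwise (Function.onFun Commute fun j => op (W j) ^ (p - 1)) :=
  fun i _ j _ _ => (F.comm i j).pow_pow _ _

end Frame

/-- the product of the operators `W_j^(p-1)`, `j ∈ s` -/
noncomputable def Pr {V : Submodule K (Derivation k K K)} {ι : Type*} [Fintype ι] [DecidableEq ι]
    {t : ι → K} {W : ι → Derivation k K K} (F : Frame p V t W) (s : Finset ι) : AddMonoid.End K :=
  s.noncommProd (fun j => op (W j) ^ (p - 1)) (F.pairwise s)

section

variable {V : Submodule K (Derivation k K K)} {ι : Type*} [Fintype ι] [DecidableEq ι]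
    {t : ι → K} {W : ι → Derivation k K K} (F : Frame p V t W)

lemma Pr_mul {s : Finset ι} {i : ι} (hi : i ∈ s) : Pr F s * op (W i) = 0 := by
  have hp2 := hp.out.two_le
  have h := Finset.noncommProd_erase_mul s hi (fun j => op (W j) ^ (p - 1)) (F.pairwise s)
  rw [Pr, ← h, mul_assoc, ← pow_succ]
  have : p - 1 + 1 = p := by omega
  rw [this, F.op_pow_eq_zero, mul_zero]

lemma Pr_apply_W {s : Finset ι} {i : ι} (hi : i ∈ s) (f : K) : Pr F s (W i f) = 0 :=
  DFunLike.congr_fun (Pr_mul F hi) f

omit hp [CharP K p] in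
lemma pow_const (D : Derivation k K K) {c : K} (hc : D c = 0) (n : ℕ) (u : K) :
    (op D ^ n) (c * u) = c * (op D ^ n) u := by
  induction n generalizing u with
  | zero => rfl
  | succ n ih =>
    rw [pow_succ, end_mul_apply, end_mul_apply, op_apply, op_apply, D.leibniz, hc]
    simp only [smul_eq_mul, mul_zero, add_zero]
    exact ih _

lemma Pr_const (s : Finset ι) {c : K} (hc : ∀ j ∈ s, W j c = 0) (u : K) :
    Pr F s (c * u) = c * Pr F s u := by
  induction s using Finset.induction_on generalizing u with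
  | empty => rfl
  | insert a s ha ih =>
    rw [Pr, Finset.noncommProd_insert_of_notMem s a _ _ ha, end_mul_apply, end_mul_apply]
    have h1 := ih (fun j hj => hc j (Finset.mem_insert_of_mem hj)) u
    rw [Pr] at h1
    rw [h1]
    exact pow_const _ (hc a (Finset.mem_insert_self _ _)) _ _

lemma Pr_top (s : Finset ι) :
    Pr F s (∏ j ∈ s, t j ^ (p - 1)) = (((p - 1).factorial ^ s.card : ℕ) : K) := by
  induction s using Finset.induction_on with
  | empty =>
    rw [Finset.prod_empty, Finset.card_empty, pow_zero, Nat.cast_one]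
    rfl
  | insert a s ha ih =>
    rw [Finset.prod_insert ha, Pr, Finset.noncommProd_insert_of_notMem s a _ _ ha, end_mul_apply]
    have h1 : Pr F s (t a ^ (p - 1) * ∏ j ∈ s, t j ^ (p - 1)) = t a ^ (p - 1) *
        Pr F s (∏ j ∈ s, t j ^ (p - 1)) := by
      apply Pr_const
      intro j hj
      have hne : a ≠ j := fun h => ha (h ▸ hj)
      rw [(W j).leibniz_pow, F.dual, if_neg hne]
      simp
    rw [Pr] at h1 ih
    rw [h1, ih, Finset.card_insert_of_notMem ha, mul_comm]
    rw [pow_const (W a) (Derivation.map_natCast _ _)]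
    have h2 : W a (t a) = 1 := by rw [F.dual, if_pos rfl]
    rw [W_pow_t (W a) h2, Nat.descFactorial_self, Nat.sub_self, pow_zero, mul_one, pow_succ]
    push_cast
    rfl

lemma Pr_top_ne (s : Finset ι) : Pr F s (∏ j ∈ s, t j ^ (p - 1)) ≠ 0 := by
  have hp2 := hp.out.two_le
  rw [Pr_top]
  push_cast
  apply pow_ne_zero
  intro h
  rw [CharP.cast_eq_zero_iff K p, hp.out.dvd_factorial] at h
  omega

end

/-! ### Transposes -/

section

variable {ι : Type*} [Fintype ι] [DecidableEq ι]
    {x : ι → K} {d : ι → Derivation k K K} (F : Frame p (⊤ : Submodule K (Derivation k K K)) x d)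

/-- divergence -/
def dv (x : ι → K) (d : ι → Derivation k K K) (D : Derivation k K K) : K := ∑ j, d j (D (x j))

include F in
lemma div_identity (D : Derivation k K K) (u f : K) :
    u * D f + (D u + dv x d D * u) * f = ∑ j, d j (u * D (x j) * f) := by
  have h1 : ∀ a, D a = ∑ j, D (x j) * d j a := by
    intro a
    have := DFunLike.congr_fun (F.expand D trivial) a
    rw [this, sum_smul_apply]
  rw [h1 f, h1 u, dv, Finset.mul_sum, add_mul, Finset.sum_mul, Finset.sum_mul, Finset.sum_mul,
    ← Finset.sum_add_distrib, ← Finset.sum_add_distrib]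
  refine Finset.sum_congr rfl fun j _ => ?_
  rw [(d j).leibniz, (d j).leibniz]
  simp only [smul_eq_mul]
  ring

include F in
lemma tau_div (D : Derivation k K K) (u f : K) :
    Pr F univ (u * D f) = - Pr F univ ((D u + dv x d D * u) * f) := by
  have h := congrArg (Pr F univ) (div_identity F D u f)
  rw [map_add, map_sum, Finset.sum_eq_zero (fun j _ => Pr_apply_W F (Finset.mem_univ j) _)] at h
  exact eq_neg_of_add_eq_zero_left h

/-- the operators which have a transpose with respect to the top coefficient functional -/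
noncomputable def TrS (F : Frame p (⊤ : Submodule K (Derivation k K K)) x d) :
    Submonoid (AddMonoid.End K) where
  carrier := {S | ∀ u, ∃ u', ∀ f, Pr F univ (u * S f) = Pr F univ (u' * f)}
  one_mem' := fun u => ⟨u, fun _ => rfl⟩
  mul_mem' := by
    intro S T hS hT u
    obtain ⟨u', hu'⟩ := hS u
    obtain ⟨u'', hu''⟩ := hT u'
    exact ⟨u'', fun f => by rw [end_mul_apply, hu', hu'']⟩

lemma Lm_mem_TrS (a : K) : Lm a ∈ TrS F := by
  intro u
  refine ⟨u * a, fun f => ?_⟩
  rw [Lm_apply, mul_assoc]

lemma op_mem_TrS (D : Derivation k K K) : op D ∈ TrS F := by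
  intro u
  refine ⟨-(D u + dv x d D * u), fun f => ?_⟩
  rw [op_apply, tau_div, neg_mul, map_neg]

/-- nondegeneracy -/
lemma tau_nondeg {h : K} (hh : ∀ f, Pr F univ (h * f) = 0) : h = 0 := by
  by_contra hne
  have h1 := hh (h⁻¹ * ∏ j ∈ univ, x j ^ (p - 1))
  rw [← mul_assoc, mul_inv_cancel₀ hne, one_mul] at h1
  exact Pr_top_ne F univ h1

include F in
/-- **Main lemma.** -/
theorem exists_density {V : Submodule K (Derivation k K K)} {κ : Type*} [Fintype κ]
    [DecidableEq κ] {t : κ → K} {W : κ → Derivation k K K} (G : Frame p V t W)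
    {g : K} (hg : g ≠ 0) {A : Set (Derivation k K K)} (hA : A ⊆ V)
    (hgA : ∀ D ∈ A, D g = - (∑ j, W j (D (t j))) * g) :
    ∃ g₀ : K, g₀ ≠ 0 ∧ ∀ D ∈ A, D g₀ = - dv x d D * g₀ := by
  -- the operator `f ↦ T (g f)`
  have hT : Pr G univ * Lm g ∈ TrS F := by
    refine (TrS F).mul_mem ?_ (Lm_mem_TrS F g)
    rw [Pr]
    exact Submonoid.noncommProd_mem _ _ _ _ fun j _ => (TrS F).pow_mem (op_mem_TrS F _) _
  -- a point where it does not vanish
  set f₁ : K := g⁻¹ * ∏ j ∈ univ, t j ^ (p - 1) with hf₁
  have hne : (Pr G univ * Lm g) f₁ ≠ 0 := by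
    rw [end_mul_apply, Lm_apply, hf₁, ← mul_assoc, mul_inv_cancel₀ hg, one_mul]
    exact Pr_top_ne G univ
  set c := (Pr G univ * Lm g) f₁ with hc
  obtain ⟨g₀, hg₀⟩ := hT (c⁻¹ * ∏ j ∈ univ, x j ^ (p - 1))
  have hg₀ne : g₀ ≠ 0 := by
    intro h0
    have h1 := hg₀ f₁
    rw [← hc, h0, zero_mul, map_zero] at h1
    have h2 : c⁻¹ * (∏ j ∈ univ, x j ^ (p - 1)) * c = ∏ j ∈ univ, x j ^ (p - 1) := by
      field_simp
    rw [h2] at h1
    exact Pr_top_ne F univ h1
  refine ⟨g₀, hg₀ne, fun D hD => ?_⟩
  have hkill : ∀ f, Pr F univ (g₀ * D f) = 0 := by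
    intro f
    rw [← hg₀]
    have h1 : (Pr G univ * Lm g) (D f) = 0 := by
      rw [end_mul_apply, Lm_apply]
      have h2 : g * D f = ∑ j, W j (g * D (t j) * f) := by
        have h3 : ∀ a, D a = ∑ j, D (t j) * W j a := by
          intro a
          have := DFunLike.congr_fun (G.expand D (hA hD)) a
          rw [this, sum_smul_apply]
        have h4 : ∀ j, W j (g * D (t j) * f) =
            (D (t j) * W j g) * f + g * f * W j (D (t j)) + g * (D (t j) * W j f) := by
          intro j
          rw [(W j).leibniz, (W j).leibniz]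
          simp only [smul_eq_mul]
          ring
        simp only [h4]
        rw [Finset.sum_add_distrib, Finset.sum_add_distrib, ← Finset.sum_mul, ← Finset.mul_sum,
          ← Finset.mul_sum, ← h3 g, ← h3 f, hgA D hD]
        ring
      rw [h2, map_sum]
      exact Finset.sum_eq_zero fun j _ => Pr_apply_W G (Finset.mem_univ j) _
    rw [h1, mul_zero, map_zero]
  have h5 : D g₀ + dv x d D * g₀ = 0 := by
    apply tau_nondeg F
    intro f
    have := tau_div F D g₀ f
    rw [hkill] at this
    exact neg_eq_zero.1 this.symm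
  rw [neg_mul]
  exact eq_neg_of_add_eq_zero_left h5

end

end Q17.LogOzone
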