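import Pool.Agent.Q17.LogOzone.Det

/-! # Hamiltonian systems of derivations: existence of an invariant density -/

set_option autoImplicit false

open Finset Matrix

namespace Q17.LogOzone

universe u

variable {p : ℕ} [hp : Fact p.Prime] {k K : Type u} [CommRing k] [Field K] [Algebra k K]
  [CharP K p]

omit hp [CharP K p] in
lemma lie_smul' (D E : Derivation k K K) (a : K) : ⁅D, a • E⁆ = D a • E + a • ⁅D, E⁆ := by
  ext b
  rw [Derivation.commutator_apply]
  change D (a * E b) - a * E (D b) = D a * E b + a * (⁅D, E⁆ b)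
  rw [D.leibniz, Derivation.commutator_apply]
  simp only [smul_eq_mul]
  ring

omit hp [CharP K p] in
lemma lie_sum' {ι : Type*} (s : Finset ι) (D : Derivation k K K) (E : ι → Derivation k K K) :
    ⁅D, ∑ i ∈ s, E i⁆ = ∑ i ∈ s, ⁅D, E i⁆ := by
  classical
  induction s using Finset.induction_on with
  | empty => simp
  | insert b s hb ih => rw [Finset.sum_insert hb, Finset.sum_insert hb, lie_add, ih]

omit hp [CharP K p] in
/-- The span of a set of derivations is closed under brackets if this holds for the set. -/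
lemma span_lie {Y : Set (Derivation k K K)} (h : ∀ D ∈ Y, ∀ E ∈ Y, ⁅D, E⁆ ∈ Submodule.span K Y) :
    ∀ D ∈ Submodule.span K Y, ∀ E ∈ Submodule.span K Y, ⁅D, E⁆ ∈ Submodule.span K Y := by
  intro D hD E hE
  -- first for `D` in the set
  have h1 : ∀ D ∈ Y, ∀ E ∈ Submodule.span K Y, ⁅D, E⁆ ∈ Submodule.span K Y := by
    intro D hD E hE
    induction hE using Submodule.span_induction with
    | mem E hE => exact h D hD E hE
    | zero => rw [lie_zero]; exact Submodule.zero_mem _
    | add E E' _ _ h h' => rw [lie_add]; exact Submodule.add_mem _ h h'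
    | smul a E hE h =>
      rw [lie_smul']
      exact Submodule.add_mem _ (Submodule.smul_mem _ _ hE) (Submodule.smul_mem _ _ h)
  induction hD using Submodule.span_induction with
  | mem D hD => exact h1 D hD E hE
  | zero => rw [zero_lie]; exact Submodule.zero_mem _
  | add D D' _ _ h h' => rw [add_lie]; exact Submodule.add_mem _ h h'
  | smul a D hD h =>
    have h' : ⁅E, D⁆ ∈ Submodule.span K Y := by
      rw [← lie_skew]
      exact Submodule.neg_mem _ h
    rw [← lie_skew, lie_smul']
    exact Submodule.neg_mem _ (Submodule.add_mem _ (Submodule.smul_mem _ _ hD)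
      (Submodule.smul_mem _ _ h'))

/-- A family of Hamiltonian derivations `X a`, `a : A`; the map `ev : A → K` is the inclusion of
the Poisson algebra and `ξ` are the coordinate functions. -/
structure HamSys {ι : Type*} [Fintype ι] (x : ι → K) (d : ι → Derivation k K K)
    {A : Type*} (ev : A → K) (X : A → Derivation k K K) (br : A → A → A) (ξ : ι → A) : Prop where
  ev_ξ : ∀ l, ev (ξ l) = x l
  X_ev : ∀ a b, X a (ev b) = ev (br a b)
  lie : ∀ a b, ⁅X a, X b⁆ = X (br a b)
  chain : ∀ a, X a = ∑ l, d l (ev a) • X (ξ l)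
  alt : ∀ a, X a (ev a) = 0
  skew : ∀ a b, X a (ev b) = - X b (ev a)

/-- the map `α ↦ ∑ α_l X_l` -/
def Hm {ι : Type*} [Fintype ι] (Xl : ι → Derivation k K K) : (ι → K) →ₗ[K] Derivation k K K where
  toFun α := ∑ l, α l • Xl l
  map_add' α β := by
    rw [← Finset.sum_add_distrib]
    exact Finset.sum_congr rfl fun l _ => add_smul _ _ _
  map_smul' c α := by
    rw [RingHom.id_apply, Finset.smul_sum]
    exact Finset.sum_congr rfl fun l _ => mul_smul _ _ _

omit hp [CharP K p] in
lemma Hm_apply {ι : Type*} [Fintype ι] (Xl : ι → Derivation k K K) (α : ι → K) (a : K) :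
    Hm Xl α a = ∑ l, α l * Xl l a := sum_smul_apply _ _ _ _

/-- the Poisson form on `K^ι` -/
def om {ι : Type*} [Fintype ι] (x : ι → K) (Xl : ι → Derivation k K K) :
    (ι → K) →ₗ[K] (ι → K) →ₗ[K] K :=
  LinearMap.mk₂ K (fun α β => ∑ m, β m * (Hm Xl α) (x m))
    (by
      intro α α' β
      rw [← Finset.sum_add_distrib]
      refine Finset.sum_congr rfl fun m _ => ?_
      rw [map_add, Derivation.add_apply, mul_add])
    (by
      intro c α β
      rw [Finset.smul_sum]
      refine Finset.sum_congr rfl fun m _ => ?_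
      rw [map_smul, Derivation.smul_apply, smul_eq_mul, smul_eq_mul]
      ring)
    (by
      intro α β β'
      rw [← Finset.sum_add_distrib]
      refine Finset.sum_congr rfl fun m _ => ?_
      rw [Pi.add_apply, add_mul])
    (by
      intro c α β
      rw [Finset.smul_sum]
      refine Finset.sum_congr rfl fun m _ => ?_
      rw [Pi.smul_apply, smul_eq_mul, smul_eq_mul, mul_assoc])

omit hp [CharP K p] in
lemma om_apply {ι : Type*} [Fintype ι] (x : ι → K) (Xl : ι → Derivation k K K) (α β : ι → K) :
    om x Xl α β = ∑ m, β m * (Hm Xl α) (x m) := rfl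

section

variable {ι : Type*} [Fintype ι] [DecidableEq ι]
    {x : ι → K} {d : ι → Derivation k K K} (F : Frame p (⊤ : Submodule K (Derivation k K K)) x d)
    {A : Type*} {ev : A → K} {X : A → Derivation k K K} {br : A → A → A} {ξ : ι → A}
    (H : HamSys x d ev X br ξ)

include H in
omit hp [CharP K p] [DecidableEq ι] in
lemma om_alt (γ : ι → K) : om x (fun l => X (ξ l)) γ γ = 0 := by
  rw [om_apply]
  simp only [Hm_apply, Finset.mul_sum]
  rw [← Finset.sum_product' (s := univ) (t := univ)
    (f := fun m l => γ m * (γ l * X (ξ l) (x m)))]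
  refine Finset.sum_involution (fun q _ => (q.2, q.1)) ?_ ?_ ?_ ?_
  · rintro ⟨m, l⟩ _
    have h := H.skew (ξ l) (ξ m)
    rw [H.ev_ξ, H.ev_ξ] at h
    simp only
    rw [h]
    ring
  · rintro ⟨m, l⟩ _ hne heq
    simp only [Prod.mk.injEq] at heq
    obtain ⟨h1, _⟩ := heq
    subst h1
    apply hne
    have h := H.alt (ξ l)
    rw [H.ev_ξ] at h
    simp only
    rw [h]
    ring
  · intro q _
    exact Finset.mem_product.2 ⟨Finset.mem_univ _, Finset.mem_univ _⟩
  · intro q _
    rfl

include F in
lemma expand_apply (D : Derivation k K K) (a : K) : D a = ∑ l, D (x l) * d l a := by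
  have := DFunLike.congr_fun (F.expand D trivial) a
  rw [this, sum_smul_apply]

include F in
lemma Hm_eq_zero {γ : ι → K} (h : ∀ δ, om x (fun l => X (ξ l)) γ δ = 0) :
    Hm (fun l => X (ξ l)) γ = 0 := by
  refine F.eq_zero trivial fun m => ?_
  have h1 := h (Pi.single m 1)
  rw [om_apply, Finset.sum_eq_single m] at h1
  · rwa [Pi.single_eq_same, one_mul] at h1
  · intro l _ hl
    rw [Pi.single_eq_of_ne hl, zero_mul]
  · intro h
    exact absurd (Finset.mem_univ m) h

/-- the Lie derivative on `K^ι` -/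
def La (d : ι → Derivation k K K) (ev : A → K) (X : A → Derivation k K K) (br : A → A → A)
    (ξ : ι → A) (a : A) (α : ι → K) : ι → K :=
  fun m => X a (α m) + ∑ l, α l * d m (ev (br a (ξ l)))

include H in
omit hp [CharP K p] [DecidableEq ι] in
lemma lie_Hm (a : A) (α : ι → K) : ⁅X a, Hm (fun l => X (ξ l)) α⁆ =
    Hm (fun l => X (ξ l)) (La d ev X br ξ a α) := by
  have h1 : Hm (fun l => X (ξ l)) α = ∑ l, α l • X (ξ l) := rfl
  have h2 : Hm (fun l => X (ξ l)) (La d ev X br ξ a α) =
      ∑ l, (La d ev X br ξ a α) l • X (ξ l) := rfl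
  rw [h1, h2, lie_sum']
  simp only [lie_smul', La, add_smul, H.lie]
  rw [Finset.sum_add_distrib, Finset.sum_add_distrib]
  congr 1
  have h3 : ∀ l, α l • X (br a (ξ l)) = ∑ m, (α l * d m (ev (br a (ξ l)))) • X (ξ m) := by
    intro l
    conv_lhs => rw [H.chain (br a (ξ l))]
    rw [Finset.smul_sum]
    exact Finset.sum_congr rfl fun m _ => (mul_smul _ _ _).symm
  simp only [h3]
  rw [Finset.sum_comm]
  refine Finset.sum_congr rfl fun m _ => ?_
  rw [Finset.sum_smul]

include F H in
lemma om_der (a : A) (α β : ι → K) : X a (om x (fun l => X (ξ l)) α β) =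
    om x (fun l => X (ξ l)) (La d ev X br ξ a α) β +
      om x (fun l => X (ξ l)) α (La d ev X br ξ a β) := by
  simp only [om_apply]
  rw [map_sum]
  have h1 : ∀ m, X a (β m * Hm (fun l => X (ξ l)) α (x m)) =
      β m * Hm (fun l => X (ξ l)) (La d ev X br ξ a α) (x m) +
      (X a (β m) * Hm (fun l => X (ξ l)) α (x m) +
        ∑ l, β m * d l (ev (br a (ξ m))) * Hm (fun l => X (ξ l)) α (x l)) := by
    intro m
    have h2 : X a (Hm (fun l => X (ξ l)) α (x m)) =
        Hm (fun l => X (ξ l)) (La d ev X br ξ a α) (x m) +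
        Hm (fun l => X (ξ l)) α (X a (x m)) := by
      rw [← lie_Hm H, Derivation.commutator_apply]
      ring
    have h3 : X a (x m) = ev (br a (ξ m)) := by rw [← H.ev_ξ, H.X_ev]
    have h4 := expand_apply F (Hm (fun l => X (ξ l)) α) (ev (br a (ξ m)))
    rw [(X a).leibniz, h2, h3, h4]
    simp only [smul_eq_mul]
    rw [mul_add, Finset.mul_sum]
    have h5 : ∀ l, β m * (Hm (fun l => X (ξ l)) α (x l) * d l (ev (br a (ξ m)))) =
        β m * d l (ev (br a (ξ m))) * Hm (fun l => X (ξ l)) α (x l) := fun l => by ring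
    simp only [h5]
    ring
  simp only [h1]
  rw [Finset.sum_add_distrib, Finset.sum_add_distrib]
  congr 1
  rw [Finset.sum_comm]
  rw [← Finset.sum_add_distrib]
  refine Finset.sum_congr rfl fun m _ => ?_
  rw [La, add_mul, Finset.sum_mul]

include F in
lemma finDim : FiniteDimensional K (Derivation k K K) := by
  have h : Submodule.span K (Set.range d) = ⊤ := by
    rw [eq_top_iff]
    intro D _
    rw [F.expand D trivial]
    exact Submodule.sum_mem _ fun j _ => Submodule.smul_mem _ _ (Submodule.subset_span ⟨j, rfl⟩)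
  exact ⟨by rw [← h]; exact Submodule.fg_span (Set.finite_range d)⟩

include F H in
/-- A basis of `V` adapted to the Hamiltonian system: the matrices of the brackets with the
Hamiltonian derivations have trace zero. -/
theorem exists_adapted {Y : Set (Derivation k K K)} (hXY : ∀ a, X a ∈ Y)
    (hY : ∀ D ∈ Y, ∀ a, ∃ b, ⁅X a, D⁆ = X b) :
    ∃ (J : Type u) (_ : Fintype J) (_ : DecidableEq J)
      (E : J → Derivation k K K), LinearIndependent K E ∧
      Submodule.span K (Set.range E) = Submodule.span K Y ∧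
      ∀ a, ∃ Z : Matrix J J K, (∀ i, ⁅X a, E i⁆ = ∑ l, Z i l • E l) ∧ Z.trace = 0 := by
  classical
  have hfd := finDim F
  set Xl : ι → Derivation k K K := fun l => X (ξ l) with hXl
  set B := om x Xl with hB
  have halt : ∀ γ, B γ γ = 0 := om_alt H
  obtain ⟨m, α, β, hS, hrem⟩ := exists_sympl (B := B) halt
  -- the symplectic family as one family
  let αβ : Fin m ⊕ Fin m → (ι → K) := Sum.elim α β
  let co : (ι → K) → Fin m ⊕ Fin m → K := fun γ =>
    Sum.elim (fun i => B γ (β i)) (fun i => - B γ (α i))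
  let e : Fin m ⊕ Fin m → Derivation k K K := fun i => Hm Xl (αβ i)
  have hexp : ∀ γ, Hm Xl γ = ∑ j, co γ j • e j := by
    intro γ
    have h1 : Hm Xl (rem B α β γ) = 0 := Hm_eq_zero F (hrem γ)
    rw [rem, map_sub, sub_eq_zero] at h1
    rw [h1, map_sum, Fintype.sum_sum_type]
    rw [← Finset.sum_add_distrib]
    refine Finset.sum_congr rfl fun i _ => ?_
    simp only [co, e, αβ, Sum.elim_inl, Sum.elim_inr]
    rw [map_sub, map_smul, map_smul, neg_smul, sub_eq_add_neg]
  -- independence of `e`
  have he_indep : ∀ c : Fin m ⊕ Fin m → K, ∑ j, c j • e j = 0 → ∀ j, c j = 0 := by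
    intro c hc
    set γ : ι → K := ∑ j, c j • αβ j with hγ
    have h0 : Hm Xl γ = 0 := by
      rw [hγ, map_sum]
      simp only [map_smul]
      exact hc
    have h1 : ∀ δ, B γ δ = 0 := by
      intro δ
      rw [hB, om_apply, h0]
      simp
    have h2 : ∀ δ, B γ δ = ∑ i, c (Sum.inl i) * B (α i) δ + ∑ i, c (Sum.inr i) * B (β i) δ := by
      intro δ
      rw [hγ, map_sum, Fintype.sum_sum_type, LinearMap.add_apply, LinearMap.coe_sum,
        LinearMap.coe_sum, Finset.sum_apply, Finset.sum_apply]
      simp only [map_smul, LinearMap.smul_apply, smul_eq_mul, αβ, Sum.elim_inl, Sum.elim_inr]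
    rintro (j | j)
    · have h3 := h1 (β j)
      rw [h2] at h3
      simpa [hS.ab, hS.bb] using h3
    · have h3 := h1 (α j)
      rw [h2] at h3
      have h4 : ∀ i, B (β i) (α j) = - if j = i then 1 else 0 := by
        intro i
        rw [skew halt, hS.ab]
      simpa [hS.aa, h4] using h3
  -- the Hamiltonian subspace
  let Ham : Submodule K (Derivation k K K) := LinearMap.range (Hm Xl)
  have hXHam : ∀ a, X a ∈ Ham := fun a => ⟨fun l => d l (ev a), (H.chain a).symm⟩
  -- representatives modulo `Ham`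
  obtain ⟨b, hbs, hbspan, hbi⟩ := exists_linearIndependent K (Ham.mkQ '' Y)
  have hbfin : Finite b := hbi.finite
  have hbft := Fintype.ofFinite b
  have hlift : ∀ q : b, ∃ D ∈ Y, Ham.mkQ D = q := by
    intro q
    exact hbs q.2
  choose y hyY hyq using hlift
  let E : (Fin m ⊕ Fin m) ⊕ b → Derivation k K K := Sum.elim e y
  have hEsum : ∀ g : (Fin m ⊕ Fin m) ⊕ b → K, ∑ i, g i • E i =
      ∑ j, g (Sum.inl j) • e j + ∑ q, g (Sum.inr q) • y q := by
    intro g
    rw [Fintype.sum_sum_type]
    rfl
  have heHam : ∀ j, e j ∈ Ham := fun j => ⟨αβ j, rfl⟩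
  have hHam_e : ∀ D ∈ Ham, ∃ c : Fin m ⊕ Fin m → K, D = ∑ j, c j • e j := by
    rintro _ ⟨γ, rfl⟩
    exact ⟨co γ, hexp γ⟩
  -- the brackets
  have hbr : ∀ a i, ∃ z : (Fin m ⊕ Fin m) ⊕ b → K, ⁅X a, E i⁆ = ∑ l, z l • E l ∧
      z i = Sum.elim (fun j => co (La d ev X br ξ a (αβ j)) j) (fun _ => 0) i := by
    intro a i
    rcases i with j | q
    · refine ⟨Sum.elim (co (La d ev X br ξ a (αβ j))) (fun _ => 0), ?_, rfl⟩
      rw [hEsum]
      simp only [Sum.elim_inl, Sum.elim_inr, zero_smul, Finset.sum_const_zero, add_zero]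
      rw [← hexp]
      exact lie_Hm H a (αβ j)
    · obtain ⟨b', hb'⟩ := hY (y q) (hyY q) a
      obtain ⟨c, hc⟩ := hHam_e _ (hXHam b')
      refine ⟨Sum.elim c (fun _ => 0), ?_, rfl⟩
      rw [hEsum]
      simp only [Sum.elim_inl, Sum.elim_inr, zero_smul, Finset.sum_const_zero, add_zero]
      rw [← hc, ← hb']
      rfl
  -- an equivalent index type in the right universe
  let f : ULift.{u} (Fin m ⊕ Fin m) ⊕ b ≃ (Fin m ⊕ Fin m) ⊕ b :=
    Equiv.sumCongr Equiv.ulift (Equiv.refl _)
  have hEi : LinearIndependent K E := by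
    rw [Fintype.linearIndependent_iff]
    intro g hg
    rw [hEsum] at hg
    have h1 : ∑ q : b, g (Sum.inr q) • (q : Derivation k K K ⧸ Ham) = 0 := by
      have h2 := congrArg Ham.mkQ hg
      rw [map_add, map_sum, map_sum, map_zero] at h2
      have h3 : ∀ j, Ham.mkQ (g (Sum.inl j) • e j) = 0 := by
        intro j
        rw [Submodule.mkQ_apply, Submodule.Quotient.mk_eq_zero]
        exact Ham.smul_mem _ (heHam j)
      simp only [h3, Finset.sum_const_zero, zero_add, map_smul, hyq] at h2
      exact h2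
    have h4 : ∀ q : b, g (Sum.inr q) = 0 := Fintype.linearIndependent_iff.1 hbi _ h1
    simp only [h4, zero_smul, Finset.sum_const_zero, add_zero] at hg
    have h5 := he_indep _ hg
    rintro (j | q)
    · exact h5 j
    · exact h4 q
  have hspanE : Submodule.span K (Set.range E) = Submodule.span K Y := by
    apply le_antisymm
    · rw [Submodule.span_le]
      rintro _ ⟨i, rfl⟩
      rcases i with j | q
      · -- `e j` is in the span of the `X a`
        change Hm Xl (αβ j) ∈ Submodule.span K Y
        exact Submodule.sum_mem _ fun l _ =>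
          Submodule.smul_mem _ _ (Submodule.subset_span (hXY _))
      · exact Submodule.subset_span (hyY q)
    · rw [Submodule.span_le]
      intro D hD
      have h1 : Ham.mkQ D ∈ Submodule.span K b := by
        rw [hbspan]
        exact Submodule.subset_span ⟨D, hD, rfl⟩
      rw [← Subtype.range_coe (s := b), Submodule.mem_span_range_iff_exists_fun] at h1
      obtain ⟨c, hc⟩ := h1
      have h2 : D - ∑ q, c q • y q ∈ Ham := by
        rw [← Submodule.Quotient.mk_eq_zero, ← Submodule.mkQ_apply, map_sub, map_sum]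
        simp only [map_smul, hyq]
        rw [hc, sub_self]
      obtain ⟨c', hc'⟩ := hHam_e _ h2
      have h3 : D = ∑ j, c' j • e j + ∑ q, c q • y q := by
        rw [← hc']; abel
      rw [h3]
      refine Submodule.add_mem _ ?_ ?_
      · exact Submodule.sum_mem _ fun j _ => Submodule.smul_mem _ _
          (Submodule.subset_span ⟨Sum.inl j, rfl⟩)
      · exact Submodule.sum_mem _ fun q _ => Submodule.smul_mem _ _
          (Submodule.subset_span ⟨Sum.inr q, rfl⟩)
  refine ⟨ULift.{u} (Fin m ⊕ Fin m) ⊕ b, inferInstance, inferInstance, fun i => E (f i),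
    hEi.comp _ f.injective, ?_, ?_⟩
  · rw [← hspanE]
    congr 1
    ext D
    constructor
    · rintro ⟨i, rfl⟩
      exact ⟨f i, rfl⟩
    · rintro ⟨i, rfl⟩
      exact ⟨f.symm i, by simp⟩
  · intro a
    choose z hz1 hz2 using hbr a
    refine ⟨Matrix.of fun i l => z (f i) (f l), ?_, ?_⟩
    · intro i
      rw [hz1 (f i)]
      exact (Equiv.sum_comp f (fun l => z (f i) l • E l)).symm
    · rw [Matrix.trace]
      simp only [Matrix.diag_apply, Matrix.of_apply]
      rw [Equiv.sum_comp f (fun i => z i i)]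
      simp only [hz2]
      rw [Fintype.sum_sum_type]
      simp only [Sum.elim_inl, Sum.elim_inr, Finset.sum_const_zero, add_zero]
      rw [Fintype.sum_sum_type, ← Finset.sum_add_distrib]
      refine Finset.sum_eq_zero fun i _ => ?_
      simp only [co, αβ, Sum.elim_inl, Sum.elim_inr]
      have h1 := om_der F H a (α i) (β i)
      have h2 : om x (fun l => X (ξ l)) (α i) (β i) = 1 := by
        have := hS.ab i i
        rwa [if_pos rfl] at this
      rw [h2, Derivation.map_one_eq_zero] at h1
      have h3 : B (La d ev X br ξ a (β i)) (α i) = - B (α i) (La d ev X br ξ a (β i)) :=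
        skew halt _ _
      rw [h3, neg_neg]
      exact h1.symm

include F H in
/-- **Existence of an invariant density.** -/
theorem exists_invariant {Y : Set (Derivation k K K)} (hXY : ∀ a, X a ∈ Y)
    (hY : ∀ D ∈ Y, ∀ a, ∃ b, ⁅X a, D⁆ = X b)
    (hlie : ∀ D ∈ Submodule.span K Y, ∀ E ∈ Submodule.span K Y, ⁅D, E⁆ ∈ Submodule.span K Y)
    (hpY : ∀ D ∈ Y, pPow p D ∈ Y) :
    ∃ g : K, g ≠ 0 ∧ ∀ a, X a g = - dv x d (X a) * g := by
  classical
  obtain ⟨J, _, _, E, hEi, hEs, hZ⟩ := exists_adapted F H hXY hY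
  set V := Submodule.span K Y with hV
  have hfun : LinearIndependent K (fun i => (E i : K → K)) := by
    rw [Fintype.linearIndependent_iff] at hEi ⊢
    intro c hc
    apply hEi
    ext a
    have := congrFun hc a
    rw [Finset.sum_apply] at this
    rw [sum_smul_apply]
    exact this
  obtain ⟨t, ht⟩ := exists_points (fun i => (E i : K → K)) hfun
  set N : Matrix J J K := Matrix.of fun i j => E i (t j) with hN
  have hunit : IsUnit N.det := isUnit_iff_ne_zero.2 ht
  let W : J → Derivation k K K := fun j => ∑ i, N⁻¹ j i • E i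
  have hW : ∀ i j, W j (t i) = if i = j then 1 else 0 := by
    intro i j
    change (∑ l, N⁻¹ j l • E l) (t i) = _
    rw [sum_smul_apply]
    have h1 : (N⁻¹ * N) j i = ∑ l, N⁻¹ j l * E l (t i) := rfl
    rw [← h1, Matrix.nonsing_inv_mul _ hunit, Matrix.one_apply]
    exact if_congr eq_comm rfl rfl
  have hEV : ∀ i, E i ∈ V := by
    intro i
    rw [← hEs]
    exact Submodule.subset_span ⟨i, rfl⟩
  have hEexp : ∀ i, E i = ∑ j, E i (t j) • W j := by
    intro i
    have h1 : ∀ j, E i (t j) • W j = ∑ l, (N i j * N⁻¹ j l) • E l := by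
      intro j
      change N i j • ∑ l, N⁻¹ j l • E l = _
      rw [Finset.smul_sum]
      exact Finset.sum_congr rfl fun l _ => smul_smul _ _ _
    simp only [h1]
    rw [Finset.sum_comm]
    simp only [← Finset.sum_smul]
    have h2 : ∀ l, ∑ j, N i j * N⁻¹ j l = if i = l then 1 else 0 := by
      intro l
      have h3 : (N * N⁻¹) i l = ∑ j, N i j * N⁻¹ j l := rfl
      rw [← h3, Matrix.mul_nonsing_inv _ hunit, Matrix.one_apply]
    simp only [h2, ite_smul, one_smul, zero_smul, Finset.sum_ite_eq, Finset.mem_univ, if_true]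
  have hG : Frame p V t W := by
    refine ⟨hlie, ?_, ?_, hW, ?_⟩
    · exact pPow_mem_of_span hlie hV fun D hD => Submodule.subset_span (hpY D hD)
    · intro j
      exact Submodule.sum_mem _ fun i _ => Submodule.smul_mem _ _ (hEV i)
    · intro D hD
      rw [← hEs] at hD
      induction hD using Submodule.span_induction with
      | mem D hD =>
        obtain ⟨i, rfl⟩ := hD
        exact hEexp i
      | zero => simp
      | add D D' _ _ h h' =>
        conv_lhs => rw [h, h']
        rw [← Finset.sum_add_distrib]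
        exact Finset.sum_congr rfl fun j _ => (add_smul _ _ _).symm
      | smul a D _ h =>
        conv_lhs => rw [h]
        rw [Finset.smul_sum]
        exact Finset.sum_congr rfl fun j _ => smul_smul _ _ _
  have hdet : ∀ a, X a N.det = (∑ j, W j (X a (t j))) * N.det := by
    intro a
    obtain ⟨Z, hZ1, hZ2⟩ := hZ a
    have h1 := det_deriv (X a) N Z (Matrix.of fun l j => W l (X a (t j))) (by
      intro i j
      rw [Matrix.add_apply, Matrix.mul_apply, Matrix.mul_apply]
      simp only [Matrix.of_apply, hN]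
      have h2 : X a (E i (t j)) = ⁅X a, E i⁆ (t j) + E i (X a (t j)) := by
        rw [Derivation.commutator_apply]; ring
      rw [h2, hZ1 i, sum_smul_apply]
      congr 1
      conv_lhs => rw [hEexp i]
      rw [sum_smul_apply])
    rw [h1, hZ2, zero_add]
    rfl
  refine (exists_density F hG (g := N.det⁻¹) (inv_ne_zero ht) (A := Set.range X) ?_ ?_).imp
    fun g hg => ⟨hg.1, fun a => hg.2 _ ⟨a, rfl⟩⟩
  · rintro _ ⟨a, rfl⟩
    exact Submodule.subset_span (hXY a)
  · rintro _ ⟨a, rfl⟩
    rw [Derivation.leibniz_inv, hdet, smul_eq_mul]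
    field_simp

end

end Q17.LogOzone
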