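import Mathlib

/-! # Jacobson's formula for `p`-th powers in a ring of characteristic `p` -/

set_option autoImplicit false

open Polynomial Finset

namespace Q17.LogOzone

section

variable {p : ℕ} [hp : Fact p.Prime]

lemma choose_sub_one {R : Type*} [Ring R] [CharP R p] : ∀ i : ℕ, i < p →
    (((p - 1).choose i : ℕ) : R) = (-1) ^ i := by
  intro i
  induction i with
  | zero => intro _; simp
  | succ i ih =>
    intro hi
    have h1 := ih (by omega)
    have h2 : (p - 1).choose i + (p - 1).choose (i + 1) = p.choose (i + 1) := by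
      have : p = (p - 1) + 1 := by omega
      conv_rhs => rw [this]
      exact (Nat.choose_succ_succ _ _).symm
    have h3 : ((p.choose (i + 1) : ℕ) : R) = 0 := by
      rw [CharP.cast_eq_zero_iff R p]
      exact hp.out.dvd_choose_self (by omega) hi
    have h4 := congrArg (Nat.cast : ℕ → R) h2
    rw [Nat.cast_add, h3, h1] at h4
    rw [pow_succ, mul_neg_one, eq_neg_iff_add_eq_zero, add_comm]
    exact h4

/-- `(a - b)^(p-1) = ∑ a^i b^(p-1-i)` for commuting elements in characteristic `p`. -/
lemma sub_pow_pred {R : Type*} [Ring R] [CharP R p] {a b : R} (h : Commute a b) :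
    (a - b) ^ (p - 1) = ∑ i ∈ range p, a ^ i * b ^ (p - 1 - i) := by
  have hpp : p - 1 + 1 = p := by have := hp.out.one_lt; omega
  rw [sub_eq_add_neg, h.neg_right.add_pow, hpp]
  refine Finset.sum_congr rfl fun i hi => ?_
  rw [Finset.mem_range] at hi
  rw [choose_sub_one (p := p) i hi, neg_pow b, mul_assoc, mul_assoc]
  congr 1
  have h2 : ((-1 : R) ^ (p - 1 - i)) * (b ^ (p - 1 - i) * (-1) ^ i) =
      ((-1) ^ (p - 1 - i) * (-1) ^ i) * b ^ (p - 1 - i) := by
    rw [((Commute.neg_one_right (b ^ (p - 1 - i))).pow_right i).eq, mul_assoc]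
  rw [h2, ← pow_add]
  have h3 : p - 1 - i + i = p - 1 := by omega
  rw [h3]
  rcases hp.out.eq_two_or_odd' with h2 | h2
  · subst h2
    have : (-1 : R) = 1 := by
      rw [neg_eq_iff_add_eq_zero]
      have := CharP.cast_eq_zero R 2
      rw [← one_add_one_eq_two] at this
      exact_mod_cast this
    rw [this, one_pow, one_mul]
  · have h4 : Even (p - 1) := by
      obtain ⟨k, hk⟩ := h2
      exact ⟨k, by omega⟩
    rw [h4.neg_one_pow, one_mul]

/-- left multiplication -/
def Lm {R : Type*} [Ring R] (x : R) : AddMonoid.End R := AddMonoidHom.mulLeft x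

/-- right multiplication -/
def Rm {R : Type*} [Ring R] (x : R) : AddMonoid.End R := AddMonoidHom.mulRight x

/-- the operator `y ↦ x y - y x` -/
def ad {R : Type*} [Ring R] (x : R) : AddMonoid.End R := Lm x - Rm x

lemma ad_apply {R : Type*} [Ring R] (x y : R) : ad x y = x * y - y * x := rfl

lemma end_mul_apply {R : Type*} [AddCommGroup R] (f g : AddMonoid.End R) (y : R) :
    (f * g) y = f (g y) := rfl

lemma end_sum_apply {R : Type*} [AddCommGroup R] {ι : Type*} (s : Finset ι)
    (f : ι → AddMonoid.End R) (y : R) : (∑ i ∈ s, f i) y = ∑ i ∈ s, f i y := by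
  classical
  induction s using Finset.induction_on with
  | empty => rfl
  | insert a s ha ih =>
    rw [Finset.sum_insert ha, Finset.sum_insert ha, ← ih]
    rfl

lemma commute_LR {R : Type*} [Ring R] (x : R) : Commute (Lm x) (Rm x) := by
  ext y
  change x * (y * x) = (x * y) * x
  rw [mul_assoc]

lemma L_pow {R : Type*} [Ring R] (x y : R) (n : ℕ) : (Lm x ^ n) y = x ^ n * y := by
  induction n generalizing y with
  | zero => rw [pow_zero, pow_zero, one_mul]; rfl
  | succ n ih =>
    rw [pow_succ, end_mul_apply, ih, pow_succ, mul_assoc]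
    rfl

lemma R_pow {R : Type*} [Ring R] (x y : R) (n : ℕ) : (Rm x ^ n) y = y * x ^ n := by
  induction n generalizing y with
  | zero => rw [pow_zero, pow_zero, mul_one]; rfl
  | succ n ih =>
    rw [pow_succ, end_mul_apply, ih, pow_succ', ← mul_assoc]
    rfl

lemma charP_end (R : Type*) [Ring R] [CharP R p] : CharP (AddMonoid.End R) p := by
  have hnt : Nontrivial R := CharP.nontrivial_of_char_ne_one hp.out.one_lt.ne'
  have : Nontrivial (AddMonoid.End R) := by
    refine ⟨⟨0, 1, fun h => ?_⟩⟩
    have := DFunLike.congr_fun h (1 : R)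
    exact zero_ne_one this
  rw [CharP.charP_iff_prime_eq_zero hp.out]
  ext y
  rw [← nsmul_one]
  change p • y = 0
  rw [nsmul_eq_mul, CharP.cast_eq_zero, zero_mul]

/-- `(ad x)^p = ad (x^p)` in characteristic `p`. -/
lemma ad_pow {R : Type*} [Ring R] [CharP R p] (x y : R) :
    ((ad x) ^ p) y = x ^ p * y - y * x ^ p := by
  have := charP_end (p := p) R
  rw [ad, sub_pow_char_of_commute (p := p) (commute_LR x)]
  change (Lm x ^ p) y - (Rm x ^ p) y = _
  rw [L_pow, R_pow]

/-- `∑ x^i y x^(p-1-i) = (ad x)^(p-1) y` in characteristic `p`. -/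
lemma ad_pow_pred {R : Type*} [Ring R] [CharP R p] (x y : R) :
    ((ad x) ^ (p - 1)) y = ∑ i ∈ range p, x ^ i * y * x ^ (p - 1 - i) := by
  have := charP_end (p := p) R
  rw [ad, sub_pow_pred (p := p) (commute_LR x), end_sum_apply]
  refine Finset.sum_congr rfl fun i _ => ?_
  rw [end_mul_apply, L_pow, R_pow, mul_assoc]

end

/-! ### Jacobson's formula -/

lemma derivative_pow' {R : Type*} [Ring R] (F : R[X]) (n : ℕ) :
    derivative (F ^ n) = ∑ i ∈ range n, F ^ i * derivative F * F ^ (n - 1 - i) := by
  induction n with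
  | zero => simp
  | succ n ih =>
    rw [pow_succ, derivative_mul, ih, Finset.sum_range_succ, Finset.sum_mul]
    congr 1
    · refine Finset.sum_congr rfl fun i hi => ?_
      rw [Finset.mem_range] at hi
      rw [mul_assoc, ← pow_succ]
      congr 2
      omega
    · simp

variable {p : ℕ} [hp : Fact p.Prime]

/-- Jacobson: if an additive subgroup is closed under commutators, then `p`-th power is additive
modulo the subgroup. -/
theorem jacobson {R : Type*} [Ring R] [CharP R p] (L : AddSubgroup R)
    (hL : ∀ x ∈ L, ∀ y ∈ L, x * y - y * x ∈ L) {x y : R} (hx : x ∈ L) (hy : y ∈ L) :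
    (x + y) ^ p - x ^ p - y ^ p ∈ L := by
  have hp2 := hp.out.two_le
  set F : R[X] := C x * X + C y with hF
  have hnt : Nontrivial R := CharP.nontrivial_of_char_ne_one hp.out.one_lt.ne'
  have hchar : CharP R[X] p := inferInstance
  -- polynomials with coefficients in `L`
  have hstep : ∀ G : R[X], (∀ n, G.coeff n ∈ L) → ∀ n, (ad F G).coeff n ∈ L := by
    intro G hG n
    have h1 : ad F G = (C x * G - G * C x) * X + (C y * G - G * C y) := by
      rw [ad_apply, hF]
      have e1 : C x * X * G = C x * G * X := by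
        rw [mul_assoc, X_mul, ← mul_assoc]
      rw [add_mul, mul_add, e1]
      rw [← mul_assoc G (C x) X]
      rw [sub_mul]
      abel
    rw [h1, coeff_add]
    refine L.add_mem ?_ ?_
    · cases n with
      | zero => rw [coeff_mul_X_zero]; exact L.zero_mem
      | succ n =>
        rw [coeff_mul_X, coeff_sub, coeff_C_mul, coeff_mul_C]
        exact hL _ hx _ (hG n)
    · rw [coeff_sub, coeff_C_mul, coeff_mul_C]
      exact hL _ hy _ (hG n)
  have hiter : ∀ m : ℕ, ∀ n, (((ad F) ^ m) (C x)).coeff n ∈ L := by
    intro m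
    induction m with
    | zero =>
      intro n
      rw [pow_zero]
      change (C x).coeff n ∈ L
      rw [coeff_C]
      split_ifs
      · exact hx
      · exact L.zero_mem
    | succ m ih =>
      intro n
      rw [pow_succ', end_mul_apply]
      exact hstep _ ih n
  have hder : derivative (F ^ p) = ((ad F) ^ (p - 1)) (C x) := by
    rw [derivative_pow', ad_pow_pred (p := p)]
    refine Finset.sum_congr rfl fun i _ => ?_
    have : derivative F = C x := by
      rw [hF, derivative_add, derivative_C, add_zero, derivative_mul, derivative_C, zero_mul,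
        zero_add, derivative_X, mul_one]
    rw [this]
  have hcoeff : ∀ n, n + 1 < p → (F ^ p).coeff (n + 1) ∈ L := by
    intro n hn
    have h1 : (derivative (F ^ p)).coeff n ∈ L := by
      rw [hder]
      exact hiter _ _
    rw [coeff_derivative] at h1
    -- multiply with an inverse of `n + 1` modulo `p`
    have hcop : Nat.Coprime (n + 1) p := by
      rw [Nat.coprime_comm, hp.out.coprime_iff_not_dvd]
      exact fun h => absurd (Nat.le_of_dvd (by omega) h) (by omega)
    obtain ⟨m, -, hm⟩ := Nat.exists_mul_mod_eq_one_of_coprime hcop hp.out.one_lt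
    have h2 : ((m : ℕ) : R) * ((n : R) + 1) = 1 := by
      have h3 : (((n + 1) * m : ℕ) : R) = ((1 : ℕ) : R) := by
        rw [CharP.natCast_eq_natCast' R p]
        rw [Nat.ModEq, hm, Nat.mod_eq_of_lt hp.out.one_lt]
      rw [mul_comm, Nat.cast_mul] at h3
      push_cast at h3
      exact h3
    have h3 : (F ^ p).coeff (n + 1) = m • ((F ^ p).coeff (n + 1) * ((n : R) + 1)) := by
      rw [nsmul_eq_mul, ← mul_assoc, Nat.cast_comm, mul_assoc, h2, mul_one]
    rw [h3]
    exact L.nsmul_mem h1 m
  -- evaluate at `1`
  let ev : R[X] →+* R := eval₂RingHom' (RingHom.id R) 1 (fun a => Commute.one_right _)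
  have hev : ∀ G : R[X], ev G = G.sum fun _ a => a := by
    intro G
    change eval₂ (RingHom.id R) 1 G = _
    rw [eval₂_def]
    simp
  have hevF : ev F = x + y := by
    change eval₂ (RingHom.id R) 1 F = _
    have h1 : ev (C x * X + C y) = ev (C x) * ev X + ev (C y) := by
      rw [map_add, map_mul]
    have h2 : ∀ a, ev (C a) = a := fun a => by
      change eval₂ (RingHom.id R) 1 (C a) = a
      rw [eval₂_C]; rfl
    have h3 : ev X = 1 := by
      change eval₂ (RingHom.id R) 1 X = 1
      rw [eval₂_X]
    rw [h2, h2, h3, mul_one] at h1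
    exact h1
  have hdeg1 : F.natDegree ≤ 1 := by
    rw [hF]
    refine (natDegree_add_le _ _).trans ?_
    simp only [natDegree_C, max_le_iff, zero_le, and_true]
    exact (natDegree_C_mul_le _ _).trans natDegree_X_le
  have hdeg : (F ^ p).natDegree < p + 1 := by
    have := natDegree_pow_le_of_le p hdeg1
    omega
  have hsum : (x + y) ^ p = ∑ i ∈ range (p + 1), (F ^ p).coeff i := by
    rw [← hevF, ← map_pow, hev]
    rw [Polynomial.sum_over_range' _ (by simp) (p + 1) hdeg]
  have hc0 : (F ^ p).coeff 0 = y ^ p := by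
    have h1 : F.coeff 0 = y := by
      rw [hF, coeff_add, coeff_C_zero, coeff_mul_X_zero, zero_add]
    have : ∀ n : ℕ, (F ^ n).coeff 0 = y ^ n := by
      intro n
      induction n with
      | zero => simp
      | succ n ih => rw [pow_succ, mul_coeff_zero, ih, h1, pow_succ]
    exact this p
  have hcp : (F ^ p).coeff p = x ^ p := by
    have h1 : F.coeff 1 = x := by
      rw [hF, coeff_add, coeff_C_succ, add_zero, coeff_mul_X, coeff_C_zero]
    have := coeff_pow_of_natDegree_le (m := p) hdeg1
    rw [mul_one, h1] at this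
    exact this
  rw [Finset.sum_range_succ, hcp] at hsum
  have hp1 : p = (p - 1) + 1 := by omega
  have hs2 : ∑ i ∈ range p, (F ^ p).coeff i =
      (∑ i ∈ range (p - 1), (F ^ p).coeff (i + 1)) + y ^ p := by
    conv_lhs => rw [hp1]
    rw [Finset.sum_range_succ', ← hp1, hc0]
  rw [hs2] at hsum
  have : (x + y) ^ p - x ^ p - y ^ p = ∑ i ∈ range (p - 1), (F ^ p).coeff (i + 1) := by
    rw [hsum]
    abel
  rw [this]
  refine L.sum_mem fun i hi => ?_
  rw [Finset.mem_range] at hi
  exact hcoeff i (by omega)

end Q17.LogOzone
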