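import Pool.Agent.Q17.LogOzone.Ham

/-! # Polynomial Poisson algebras in characteristic `p`: the modular derivation is `δ_Ω` -/

set_option autoImplicit false
set_option linter.unusedSectionVars false

open Finset

namespace Q17.LogOzone

universe u

/-- A Poisson bracket on a commutative `k`-algebra `P`: a `k`-bilinear Lie bracket which is a
derivation in the second variable. -/
structure PoissonBracket (k P : Type u) [CommRing k] [CommRing P] [Algebra k P] where
  /-- the bracket -/
  br : P →ₗ[k] P →ₗ[k] P
  alt : ∀ a, br a a = 0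
  jacobi : ∀ a b c, br a (br b c) + br b (br c a) + br c (br a b) = 0
  leibniz : ∀ a b c, br a (b * c) = b * br a c + c * br a b

/-! ### Extension of derivations to the fraction field -/

section extend

open TrivSqZeroExt

variable {k P K : Type u} [CommRing k] [CommRing P] [IsDomain P] [Algebra k P] [Field K]
  [Algebra P K] [IsFractionRing P K] [Algebra k K] [IsScalarTower k P K]

variable (K) in
/-- the ring homomorphism `a ↦ a + ε D a` -/
def preHom (D : Derivation k P P) : P →+* TrivSqZeroExt K K where
  toFun a := inl (algebraMap P K a) + inr (algebraMap P K (D a))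
  map_one' := by simp
  map_mul' a b := by
    apply TrivSqZeroExt.ext
    · simp
    · simp only [snd_add, snd_inl, snd_inr, zero_add, snd_mul, fst_add, fst_inl, fst_inr, add_zero,
        D.leibniz, smul_eq_mul, MulOpposite.smul_eq_mul_unop, MulOpposite.unop_op, map_add, map_mul]
      ring
  map_zero' := by simp
  map_add' a b := by
    apply TrivSqZeroExt.ext
    · simp
    · simp only [snd_add, snd_inl, snd_inr, zero_add, map_add]

variable (K) in
/-- its extension to the fraction field -/
noncomputable def extHom (D : Derivation k P P) : K →+* TrivSqZeroExt K K :=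
  IsLocalization.lift (M := nonZeroDivisors P) (g := preHom K D) (by
    intro y
    rw [TrivSqZeroExt.isUnit_iff_isUnit_fst]
    change IsUnit (fst (inl (algebraMap P K y) + inr (algebraMap P K (D y))))
    rw [fst_add, fst_inl, fst_inr, add_zero, isUnit_iff_ne_zero]
    exact IsFractionRing.to_map_ne_zero_of_mem_nonZeroDivisors y.2)

lemma extHom_map (D : Derivation k P P) (a : P) :
    extHom K D (algebraMap P K a) = inl (algebraMap P K a) + inr (algebraMap P K (D a)) :=
  IsLocalization.lift_eq _ a

lemma fst_extHom (D : Derivation k P P) (z : K) : fst (extHom K D z) = z := by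
  have h : ((fstHom K K K : TrivSqZeroExt K K →ₐ[K] K) : TrivSqZeroExt K K →+* K).comp
      (extHom K D) = RingHom.id K := by
    apply IsLocalization.ringHom_ext (nonZeroDivisors P)
    ext a
    change fst (extHom K D (algebraMap P K a)) = algebraMap P K a
    rw [extHom_map]
    simp
  exact DFunLike.congr_fun h z

variable (K) in
/-- the extension of a derivation to the fraction field -/
noncomputable def extD (D : Derivation k P P) : Derivation k K K where
  toFun z := snd (extHom K D z)
  map_add' a b := by rw [map_add, snd_add]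
  map_smul' c z := by
    rw [RingHom.id_apply]
    have h1 : c • z = algebraMap P K (algebraMap k P c) * z := by
      rw [← IsScalarTower.algebraMap_apply, Algebra.smul_def]
    rw [h1, map_mul, extHom_map]
    have h2 : D (algebraMap k P c) = 0 := D.map_algebraMap c
    rw [h2, map_zero, inr_zero, add_zero, inl_mul_eq_smul, snd_smul, smul_eq_mul,
      ← IsScalarTower.algebraMap_apply, Algebra.smul_def]
  map_one_eq_zero' := by
    change snd (extHom K D 1) = 0
    rw [map_one, snd_one]
  leibniz' a b := by
    change snd (extHom K D (a * b)) = a * snd (extHom K D b) + b * snd (extHom K D a)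
    rw [map_mul, snd_mul, fst_extHom, fst_extHom]
    simp only [smul_eq_mul, MulOpposite.smul_eq_mul_unop, MulOpposite.unop_op]
    ring

lemma extD_map (D : Derivation k P P) (a : P) :
    extD K D (algebraMap P K a) = algebraMap P K (D a) := by
  change snd (extHom K D (algebraMap P K a)) = _
  rw [extHom_map, snd_add, snd_inl, snd_inr, zero_add]

/-- two derivations of `K` which agree on `P` are equal -/
lemma der_ext {D E : Derivation k K K}
    (h : ∀ a : P, D (algebraMap P K a) = E (algebraMap P K a)) : D = E := by
  ext z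
  obtain ⟨a, b, hb⟩ := IsFractionRing.div_surjective (A := P) z
  obtain ⟨_, rfl⟩ := hb
  rw [Derivation.leibniz_div, Derivation.leibniz_div, h, h]

end extend

section main

variable {p : ℕ} [hp : Fact p.Prime] {n : ℕ} {k : Type u} [Field k] [CharP k p]

/-- the derivation `{a, -}` -/
noncomputable def brD {n : ℕ} {k : Type u} [Field k] (B : PoissonBracket k (MvPolynomial (Fin n) k))
    (a : MvPolynomial (Fin n) k) :
    Derivation k (MvPolynomial (Fin n) k) (MvPolynomial (Fin n) k) where
  toLinearMap := B.br a
  map_one_eq_zero' := by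
    have := B.leibniz a 1 1
    rw [mul_one, one_mul] at this
    exact left_eq_add.1 this
  leibniz' := B.leibniz a

variable (B : PoissonBracket k (MvPolynomial (Fin n) k))

lemma br_skew (a b : MvPolynomial (Fin n) k) : B.br a b = - B.br b a := by
  have h := B.alt (a + b)
  simp only [map_add, LinearMap.add_apply, B.alt, zero_add, add_zero] at h
  exact eq_neg_of_add_eq_zero_right h

lemma br_jac (a b c : MvPolynomial (Fin n) k) :
    B.br (B.br a b) c = B.br a (B.br b c) - B.br b (B.br a c) := by
  have h := B.jacobi a b c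
  rw [br_skew B (B.br a b) c, br_skew B a c, map_neg]
  linear_combination -h

/-- the field of fractions -/
abbrev KK (n : ℕ) (k : Type u) [Field k] : Type u := FractionRing (MvPolynomial (Fin n) k)

instance charKK : CharP (KK n k) p :=
  charP_of_injective_algebraMap (algebraMap k (KK n k)).injective p

/-- coordinates -/
noncomputable def xx (n : ℕ) (k : Type u) [Field k] (i : Fin n) : KK n k :=
  algebraMap _ _ (MvPolynomial.X i : MvPolynomial (Fin n) k)

/-- partial derivatives -/
noncomputable def dd (n : ℕ) (k : Type u) [Field k] (i : Fin n) :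
    Derivation k (KK n k) (KK n k) := extD (KK n k) (MvPolynomial.pderiv i)

/-- Hamiltonian derivations -/
noncomputable def XX (a : MvPolynomial (Fin n) k) : Derivation k (KK n k) (KK n k) :=
  extD (KK n k) (brD B a)

omit hp [CharP k p] in
lemma der_ext_X {D E : Derivation k (KK n k) (KK n k)} (h : ∀ i, D (xx n k i) = E (xx n k i)) :
    D = E := by
  apply der_ext (P := MvPolynomial (Fin n) k)
  intro a
  induction a using MvPolynomial.induction_on with
  | C c =>
    have : algebraMap (MvPolynomial (Fin n) k) (KK n k) (MvPolynomial.C c) =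
        algebraMap k (KK n k) c := by
      rw [IsScalarTower.algebraMap_apply k (MvPolynomial (Fin n) k) (KK n k)]
      rfl
    rw [this, D.map_algebraMap, E.map_algebraMap]
  | add a b ha hb => rw [map_add, map_add, map_add, ha, hb]
  | mul_X a i ha =>
    have h1 := h i
    rw [xx] at h1
    rw [map_mul, D.leibniz, E.leibniz, ha, h1]

omit hp [CharP k p] in
lemma sum_smul_apply' {ι : Type*} (s : Finset ι) (c : ι → KK n k)
    (W : ι → Derivation k (KK n k) (KK n k)) (a : KK n k) :
    (∑ j ∈ s, c j • W j) a = ∑ j ∈ s, c j * W j a := sum_smul_apply s c W a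

lemma frame : Frame p (⊤ : Submodule (KK n k) (Derivation k (KK n k) (KK n k)))
    (xx n k) (dd n k) := by
  have hdual : ∀ i j, dd n k j (xx n k i) = if i = j then 1 else 0 := by
    intro i j
    rw [dd, xx, extD_map, MvPolynomial.pderiv_X, Pi.single_apply]
    split_ifs <;> simp
  refine ⟨fun _ _ _ _ => trivial, fun _ _ => trivial, fun _ => trivial, hdual, ?_⟩
  intro D _
  apply der_ext_X
  intro i
  rw [sum_smul_apply]
  simp only [hdual]
  simp

omit hp [CharP k p] in
lemma XX_map (a b : MvPolynomial (Fin n) k) : XX B a (algebraMap _ _ b) =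
    algebraMap _ (KK n k) (B.br a b) := extD_map _ _

omit hp [CharP k p] in
lemma XX_lie (a b : MvPolynomial (Fin n) k) : ⁅XX B a, XX B b⁆ = XX B (B.br a b) := by
  apply der_ext (P := MvPolynomial (Fin n) k)
  intro c
  rw [Derivation.commutator_apply, XX_map, XX_map, XX_map, XX_map, XX_map, ← map_sub, br_jac]

omit hp [CharP k p] in
lemma XX_neg (a : MvPolynomial (Fin n) k) : XX B (-a) = - XX B a := by
  apply der_ext (P := MvPolynomial (Fin n) k)
  intro c
  rw [XX_map, map_neg, LinearMap.neg_apply, map_neg, Derivation.neg_apply, XX_map]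

include hp in
lemma hamSys : HamSys (xx n k) (dd n k)
    (fun a => algebraMap (MvPolynomial (Fin n) k) (KK n k) a) (XX B)
    (fun a b => B.br a b) (fun i => MvPolynomial.X i) := by
  refine ⟨fun _ => rfl, fun a b => XX_map B a b, XX_lie B, ?_, ?_, ?_⟩
  · intro a
    apply der_ext (P := MvPolynomial (Fin n) k)
    intro b
    rw [sum_smul_apply]
    have h := expand_apply (frame (p := p) (n := n) (k := k)) (XX B b) (algebraMap _ _ a)
    rw [XX_map, br_skew, map_neg] at h
    rw [XX_map, ← neg_eq_iff_eq_neg.2 h.symm, ← Finset.sum_neg_distrib]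
    refine Finset.sum_congr rfl fun l _ => ?_
    rw [xx, XX_map, XX_map, br_skew B (MvPolynomial.X l) b, map_neg]
    ring
  · intro a
    rw [XX_map, B.alt, map_zero]
  · intro a b
    rw [XX_map, XX_map, br_skew, map_neg]

/-- the set of all `p`-power iterates of Hamiltonian derivations -/
def YY (p : ℕ) [hp : Fact p.Prime] {n : ℕ} {k : Type u} [Field k] [CharP k p]
    (B : PoissonBracket k (MvPolynomial (Fin n) k)) : Set (Derivation k (KK n k) (KK n k)) :=
  {D | ∃ (a : MvPolynomial (Fin n) k) (m : ℕ), D = (pPow p)^[m] (XX B a)}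

omit [CharP k p] in
lemma iter_lie {K : Type u} [Field K] [Algebra k K] [CharP K p] (E D : Derivation k K K) :
    ⁅pPow p E, D⁆ = (fun D' => ⁅E, D'⁆)^[p] D := by
  have h : ∀ m : ℕ, op ((fun D' : Derivation k K K => ⁅E, D'⁆)^[m] D) = ((ad (op E)) ^ m) (op D) := by
    intro m
    induction m with
    | zero => rfl
    | succ m ih =>
      rw [Function.iterate_succ_apply', pow_succ', end_mul_apply, ← ih]
      rfl
  have := charP_end (p := p) K
  apply op_injective
  rw [h p, op_lie, op_pPow, ad_pow]

lemma YY_Q {D : Derivation k (KK n k) (KK n k)} (hD : D ∈ YY p B) (a : MvPolynomial (Fin n) k) :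
    ∃ b, ⁅D, XX B a⁆ = XX B b := by
  obtain ⟨c, m, rfl⟩ := hD
  induction m generalizing a with
  | zero => exact ⟨_, XX_lie B c a⟩
  | succ m ih =>
    rw [Function.iterate_succ_apply', iter_lie]
    have h1 : ∀ q : ℕ, ∃ b, (fun D' : Derivation k (KK n k) (KK n k) =>
        ⁅(pPow p)^[m] (XX B c), D'⁆)^[q] (XX B a) = XX B b := by
      intro q
      induction q with
      | zero => exact ⟨a, rfl⟩
      | succ q ihq =>
        obtain ⟨b, hb⟩ := ihq
        rw [Function.iterate_succ_apply', hb]
        exact ih b
    exact h1 p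

lemma YY_R {D E : Derivation k (KK n k) (KK n k)} (hD : D ∈ YY p B) (hE : E ∈ YY p B) :
    ∃ b, ⁅D, E⁆ = XX B b := by
  obtain ⟨c, m, rfl⟩ := hE
  induction m with
  | zero => exact YY_Q B hD c
  | succ m ih =>
    obtain ⟨b, hb⟩ := ih
    have hE' : (pPow p)^[m] (XX B c) ∈ YY p B := ⟨c, m, rfl⟩
    rw [Function.iterate_succ_apply', ← lie_skew, iter_lie]
    have hp1 : p = (p - 1) + 1 := by have := hp.out.one_lt; omega
    have h1 : ∀ q : ℕ, ∃ b', (fun D' : Derivation k (KK n k) (KK n k) =>
        ⁅(pPow p)^[m] (XX B c), D'⁆)^[q + 1] D = XX B b' := by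
      intro q
      induction q with
      | zero =>
        refine ⟨-b, ?_⟩
        rw [Function.iterate_succ_apply', Function.iterate_zero_apply, ← lie_skew, hb, XX_neg]
      | succ q ihq =>
        obtain ⟨b', hb'⟩ := ihq
        rw [Function.iterate_succ_apply', hb']
        exact YY_Q B hE' b'
    obtain ⟨b', hb'⟩ := h1 (p - 1)
    rw [← hp1] at hb'
    rw [hb']
    exact ⟨-b', (XX_neg B b').symm⟩

lemma YY_lie : ∀ D ∈ Submodule.span (KK n k) (YY p B), ∀ E ∈ Submodule.span (KK n k) (YY p B),
    ⁅D, E⁆ ∈ Submodule.span (KK n k) (YY p B) := by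
  intro D hD E hE
  have hX : ∀ a, XX B a ∈ Submodule.span (KK n k) (YY p B) := fun a =>
    Submodule.subset_span ⟨a, 0, rfl⟩
  exact span_lie (fun D hD E hE => by
    obtain ⟨b, hb⟩ := YY_R B hD hE
    rw [hb]
    exact hX b) D hD E hE

include p hp in
/-- **Main theorem**: there is a nonzero polynomial `Ω` with `{a, Ω} = φ(a) Ω` for all `a`, where
`φ` is the modular derivation. -/
theorem main : ∃ Ω : MvPolynomial (Fin n) k, Ω ≠ 0 ∧
    ∀ a, B.br a Ω = (∑ j, MvPolynomial.pderiv j (B.br (MvPolynomial.X j) a)) * Ω := by
  obtain ⟨g, hg, hga⟩ := exists_invariant (frame (p := p) (n := n) (k := k)) (hamSys (p := p) B)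
    (Y := YY p B) (fun a => ⟨a, 0, rfl⟩)
    (by
      intro D hD a
      obtain ⟨b, hb⟩ := YY_Q B hD a
      exact ⟨-b, by rw [← lie_skew, hb, XX_neg]⟩)
    (YY_lie B)
    (by
      rintro D ⟨a, m, rfl⟩
      exact ⟨a, m + 1, (Function.iterate_succ_apply' _ _ _).symm⟩)
  obtain ⟨u, v, hv, rfl⟩ := IsFractionRing.div_surjective (A := MvPolynomial (Fin n) k) g
  have hv0 : algebraMap (MvPolynomial (Fin n) k) (KK n k) v ≠ 0 :=
    IsFractionRing.to_map_ne_zero_of_mem_nonZeroDivisors hv
  have hu0 : algebraMap (MvPolynomial (Fin n) k) (KK n k) u ≠ 0 := by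
    intro h
    apply hg
    rw [h, zero_div]
  have hinj : Function.Injective (algebraMap (MvPolynomial (Fin n) k) (KK n k)) :=
    IsFractionRing.injective _ _
  have hdiv : ∀ a, dv (xx n k) (dd n k) (XX B a) = - algebraMap (MvPolynomial (Fin n) k) (KK n k)
      (∑ j, MvPolynomial.pderiv j (B.br (MvPolynomial.X j) a)) := by
    intro a
    rw [dv, map_sum, ← Finset.sum_neg_distrib]
    refine Finset.sum_congr rfl fun j _ => ?_
    rw [xx, XX_map, dd, extD_map, br_skew, map_neg, map_neg]
  refine ⟨u * v ^ (p - 1), ?_, fun a => ?_⟩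
  · intro h
    have h2 := congrArg (algebraMap (MvPolynomial (Fin n) k) (KK n k)) h
    rw [map_mul, map_pow, map_zero] at h2
    exact mul_ne_zero hu0 (pow_ne_zero _ hv0) h2
  · apply hinj
    have hpp : p - 1 + 1 = p := by have := hp.out.one_lt; omega
    have hΩ : algebraMap (MvPolynomial (Fin n) k) (KK n k) (u * v ^ (p - 1)) =
        (algebraMap _ _ v) ^ p * (algebraMap (MvPolynomial (Fin n) k) (KK n k) u /
          algebraMap _ _ v) := by
      rw [map_mul, map_pow]
      field_simp
      rw [← pow_succ, hpp]
    rw [← XX_map, hΩ, (XX B a).leibniz, (XX B a).leibniz_pow, hga a, hdiv, map_mul, hΩ]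
    have hp0 : (p : KK n k) = 0 := CharP.cast_eq_zero _ _
    rw [← Nat.cast_smul_eq_nsmul (KK n k), hp0]
    simp only [smul_eq_mul, zero_mul, mul_zero, add_zero, neg_neg]
    ring

end main

/-! ### The notions of the problem -/

section notions

variable {n : ℕ} {k : Type u} [Field k] (B : PoissonBracket k (MvPolynomial (Fin n) k))

/-- The formula for the modular derivation. -/
noncomputable def modFun (f : MvPolynomial (Fin n) k) : MvPolynomial (Fin n) k :=
  ∑ j, MvPolynomial.pderiv j (B.br (MvPolynomial.X j) f)

lemma chain_left (f g : MvPolynomial (Fin n) k) :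
    B.br f g = ∑ j, MvPolynomial.pderiv j f * B.br (MvPolynomial.X j) g := by
  have h : ∀ f, - brD B g f = ∑ j, MvPolynomial.pderiv j f * B.br (MvPolynomial.X j) g := by
    intro f
    induction f using MvPolynomial.induction_on with
    | C c => simp
    | add a b ha hb =>
      rw [map_add, neg_add, ha, hb, ← Finset.sum_add_distrib]
      refine Finset.sum_congr rfl fun j _ => ?_
      rw [map_add, add_mul]
    | mul_X a i ha =>
      rw [(brD B g).leibniz, neg_add, smul_eq_mul, smul_eq_mul, ← mul_neg, ← mul_neg, ha]
      have h1 : - (brD B g) (MvPolynomial.X i) = B.br (MvPolynomial.X i) g := by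
        rw [br_skew B (MvPolynomial.X i) g]; rfl
      rw [h1]
      have h2 : ∀ j, MvPolynomial.pderiv j (a * MvPolynomial.X i) * B.br (MvPolynomial.X j) g =
          a * ((if i = j then 1 else 0) * B.br (MvPolynomial.X j) g) +
          MvPolynomial.X i * (MvPolynomial.pderiv j a * B.br (MvPolynomial.X j) g) := by
        intro j
        rw [Derivation.leibniz, MvPolynomial.pderiv_X, Pi.single_apply, smul_eq_mul, smul_eq_mul]
        ring
      simp only [h2]
      rw [Finset.sum_add_distrib, ← Finset.mul_sum, ← Finset.mul_sum]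
      congr 2
      simp
  rw [← h, br_skew]
  rfl

/-- The modular derivation `φ(f) = ∑ ∂_j {x_j, f}`. -/
noncomputable def modular : Derivation k (MvPolynomial (Fin n) k) (MvPolynomial (Fin n) k) where
  toFun := modFun B
  map_add' f g := by
    simp only [modFun, map_add, Finset.sum_add_distrib]
  map_smul' c f := by
    simp only [modFun, map_smul, RingHom.id_apply, Finset.smul_sum]
    exact Finset.sum_congr rfl fun j _ => (MvPolynomial.pderiv j).map_smul c _
  map_one_eq_zero' := by
    change modFun B 1 = 0
    have : ∀ a, B.br a 1 = 0 := fun a => (brD B a).map_one_eq_zero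
    simp only [modFun, this, map_zero, Finset.sum_const_zero]
  leibniz' f g := by
    change modFun B (f * g) = f * modFun B g + g * modFun B f
    have h1 : modFun B (f * g) = f * modFun B g + g * modFun B f + (B.br f g + B.br g f) := by
      rw [chain_left B f g, chain_left B g f, modFun, modFun, modFun, Finset.mul_sum,
        Finset.mul_sum, ← Finset.sum_add_distrib, ← Finset.sum_add_distrib,
        ← Finset.sum_add_distrib]
      refine Finset.sum_congr rfl fun j _ => ?_
      rw [B.leibniz, map_add, Derivation.leibniz, Derivation.leibniz]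
      simp only [smul_eq_mul]
      ring
    rw [h1, br_skew B f g]
    ring

lemma modular_apply (f : MvPolynomial (Fin n) k) :
    modular B f = ∑ j, MvPolynomial.pderiv j (B.br (MvPolynomial.X j) f) := rfl

/-- `f` is Poisson normal: `f ≠ 0` and `{a, f} ∈ f P` for all `a`. -/
def IsPoissonNormal (f : MvPolynomial (Fin n) k) : Prop :=
  f ≠ 0 ∧ ∀ a, f ∣ B.br a f

/-- `δ` is the log-ozone derivation of the Poisson normal element `f`: `δ(a) = f⁻¹ {a, f}`. -/
def IsLogOzone (f : MvPolynomial (Fin n) k)
    (δ : Derivation k (MvPolynomial (Fin n) k) (MvPolynomial (Fin n) k)) : Prop :=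
  ∀ a, f * δ a = B.br a f

/-- The log-ozone group: the additive group generated by all `δ_f`, `f` Poisson normal. -/
noncomputable def loz : AddSubgroup (Derivation k (MvPolynomial (Fin n) k) (MvPolynomial (Fin n) k)) :=
  AddSubgroup.closure {δ | ∃ f, IsPoissonNormal B f ∧ IsLogOzone B f δ}

/-- In characteristic `p > 0` the modular derivation is `δ_Ω` for a Poisson normal `Ω`. -/
theorem modular_eq (p : ℕ) (hp : p.Prime) [CharP k p] :
    (∃ Ω, IsPoissonNormal B Ω ∧ IsLogOzone B Ω (modular B)) ∧ modular B ∈ loz B := by
  have : Fact p.Prime := ⟨hp⟩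
  obtain ⟨Ω, h0, hΩ⟩ := main (p := p) B
  have h1 : IsPoissonNormal B Ω := ⟨h0, fun a => ⟨_, by rw [hΩ a, mul_comm]⟩⟩
  have h2 : IsLogOzone B Ω (modular B) := fun a => by rw [hΩ a, mul_comm]; rfl
  exact ⟨⟨Ω, h1, h2⟩, AddSubgroup.subset_closure ⟨Ω, h1, h2⟩⟩

end notions

end Q17.LogOzone
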